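import Mathlib

/-!
# Grammar forms and their families: definitions

All letters are natural numbers. A code of a grammar lists its nonterminals, its terminals, its
productions and its start symbol.
-/

set_option autoImplicit false

namespace Pool.Agent.H64GF

/-- A code `((N, T), (P, S))` of a grammar: the lists `N` of the nonterminals, `T` of the terminals
and `P` of the productions `(A, β)`, and the start symbol `S`. -/
abbrev Code : Type := (List ℕ × List ℕ) × (List (ℕ × List ℕ) × ℕ)

/-- the nonterminals -/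
def Code.nts (G : Code) : List ℕ := G.1.1

/-- the terminals -/
def Code.ts (G : Code) : List ℕ := G.1.2

/-- the productions -/
def Code.prods (G : Code) : List (ℕ × List ℕ) := G.2.1

/-- the start symbol -/
def Code.start (G : Code) : ℕ := G.2.2

/-- The code describes a context-free grammar without empty right sides: nonterminals and terminals
are disjoint, the start symbol is a nonterminal, and every production `(A, β)` consists of a
nonterminal `A` and a nonempty word `β` over the nonterminals and terminals. -/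
def Code.IsGrammar (G : Code) : Prop :=
  (∀ x ∈ G.nts, x ∉ G.ts) ∧ G.start ∈ G.nts ∧
    ∀ r ∈ G.prods, r.1 ∈ G.nts ∧ r.2 ≠ [] ∧ ∀ x ∈ r.2, x ∈ G.nts ∨ x ∈ G.ts

/-- The grammar is linear: every right side contains at most one occurrence of a nonterminal. -/
def Code.IsLinear (G : Code) : Prop :=
  ∀ r ∈ G.prods, r.2.countP (fun x => decide (x ∈ G.nts)) ≤ 1

/-- One derivation step. -/
def Code.Step (G : Code) (u v : List ℕ) : Prop :=
  ∃ r ∈ G.prods, ∃ x y : List ℕ, u = x ++ [r.1] ++ y ∧ v = x ++ r.2 ++ y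

/-- The language generated by the grammar. -/
def Code.lang (G : Code) : Set (List ℕ) :=
  {w | (∀ a ∈ w, a ∈ G.ts) ∧ Relation.ReflTransGen G.Step [G.start] w}

/-- `G'` is the interpretation of `G` given by `σ`: the finite sets of letters `σ x`, for `x` a
letter of `G`, are pairwise disjoint, the nonterminals of `G'` are the letters in the sets `σ A`,
`A` a nonterminal of `G`, its terminals are the letters in the sets `σ a`, `a` a terminal of `G`,
its start symbol is in `σ S`, `S` the start symbol of `G`, and every production of `G'` is obtained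
from a production of `G` by replacing each occurrence of a letter `x` by some letter of `σ x`. -/
def Code.InterpBy (G : Code) (σ : ℕ → Finset ℕ) (G' : Code) : Prop :=
  (∀ x, (x ∈ G.nts ∨ x ∈ G.ts) → ∀ y, (y ∈ G.nts ∨ y ∈ G.ts) → x ≠ y → Disjoint (σ x) (σ y)) ∧
  (∀ z, z ∈ G'.nts ↔ ∃ A ∈ G.nts, z ∈ σ A) ∧
  (∀ z, z ∈ G'.ts ↔ ∃ a ∈ G.ts, z ∈ σ a) ∧
  G'.start ∈ σ G.start ∧
  ∀ r' ∈ G'.prods, ∃ r ∈ G.prods, r'.1 ∈ σ r.1 ∧ List.Forall₂ (fun z x => z ∈ σ x) r'.2 r.2

/-- The grammatical family of `G`: the languages of the interpretations of `G`. -/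
def Code.family (G : Code) : Set (Set (List ℕ)) :=
  {L | ∃ G' : Code, G'.IsGrammar ∧ (∃ σ : ℕ → Finset ℕ, G.InterpBy σ G') ∧ L = G'.lang}

/-! ### Derivation trees -/

/-- `Y G α w`: the word `w` over the terminals is derived from the sentential form `α`. -/
inductive Y (G : Code) : List ℕ → List ℕ → Prop
  | nil : Y G [] []
  | term {a : ℕ} {α w : List ℕ} : a ∈ G.ts → Y G α w → Y G (a :: α) (a :: w)
  | nt {A : ℕ} {β u α w : List ℕ} : (A, β) ∈ G.prods → Y G β u → Y G α w →
      Y G (A :: α) (u ++ w)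

theorem Y.append {G : Code} {α β u v : List ℕ} (h : Y G α u) (h' : Y G β v) :
    Y G (α ++ β) (u ++ v) := by
  induction h with
  | nil => exact h'
  | term ha _ ih => exact Y.term ha ih
  | nt hr hβ _ _ ih => rw [List.append_assoc]; exact Y.nt hr hβ ih

theorem Y.split {G : Code} {α β : List ℕ} : ∀ {w : List ℕ}, Y G (α ++ β) w →
    ∃ u v, w = u ++ v ∧ Y G α u ∧ Y G β v := by
  induction α with
  | nil => intro w h; exact ⟨[], w, rfl, Y.nil, h⟩
  | cons x α ih =>
    intro w h
    rw [List.cons_append] at h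
    cases h with
    | term ha h' =>
      obtain ⟨u, v, rfl, h1, h2⟩ := ih h'
      exact ⟨_ :: u, v, rfl, Y.term ha h1, h2⟩
    | nt hr hβ h' =>
      obtain ⟨u, v, rfl, h1, h2⟩ := ih h'
      exact ⟨_ ++ u, v, by rw [List.append_assoc], Y.nt hr hβ h1, h2⟩

theorem Y.self {G : Code} {w : List ℕ} (h : ∀ a ∈ w, a ∈ G.ts) : Y G w w := by
  induction w with
  | nil => exact Y.nil
  | cons a w ih =>
    exact Y.term (h a (by simp)) (ih (fun b hb => h b (by simp [hb])))

theorem Y.mem_ts {G : Code} {α w : List ℕ} (h : Y G α w) : ∀ a ∈ w, a ∈ G.ts := by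
  induction h with
  | nil => simp
  | term ha _ ih => simpa using ⟨ha, ih⟩
  | nt _ _ _ ih1 ih2 =>
    intro a ha
    rcases List.mem_append.1 ha with h | h
    · exact ih1 a h
    · exact ih2 a h

theorem Y.single {G : Code} {A : ℕ} {β w : List ℕ} (hr : (A, β) ∈ G.prods) (h : Y G β w) :
    Y G [A] w := by
  have := Y.nt hr h Y.nil
  rwa [List.append_nil] at this

theorem Y.of_step {G : Code} {α α' w : List ℕ} (h : G.Step α α') (h' : Y G α' w) : Y G α w := by
  obtain ⟨r, hr, x, y, rfl, rfl⟩ := h
  obtain ⟨u, v, rfl, h1, h2⟩ := h'.split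
  obtain ⟨u1, u2, rfl, h3, h4⟩ := h1.split
  exact (h3.append (Y.single (A := r.1) (β := r.2) hr h4)).append h2

theorem Step.cons {G : Code} {α β : List ℕ} (a : ℕ) (h : G.Step α β) :
    G.Step (a :: α) (a :: β) := by
  obtain ⟨r, hr, x, y, rfl, rfl⟩ := h
  exact ⟨r, hr, a :: x, y, by simp, by simp⟩

theorem Step.left {G : Code} {α β : List ℕ} (γ : List ℕ) (h : G.Step α β) :
    G.Step (γ ++ α) (γ ++ β) := by
  obtain ⟨r, hr, x, y, rfl, rfl⟩ := h
  exact ⟨r, hr, γ ++ x, y, by simp, by simp⟩

theorem Step.right {G : Code} {α β : List ℕ} (γ : List ℕ) (h : G.Step α β) :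
    G.Step (α ++ γ) (β ++ γ) := by
  obtain ⟨r, hr, x, y, rfl, rfl⟩ := h
  exact ⟨r, hr, x, y ++ γ, by simp, by simp⟩

theorem der_left {G : Code} {α β : List ℕ} (γ : List ℕ) (h : Relation.ReflTransGen G.Step α β) :
    Relation.ReflTransGen G.Step (γ ++ α) (γ ++ β) :=
  Relation.ReflTransGen.lift (fun x => γ ++ x) (fun _ _ h => Step.left γ h) _ _ h

theorem der_right {G : Code} {α β : List ℕ} (γ : List ℕ) (h : Relation.ReflTransGen G.Step α β) :
    Relation.ReflTransGen G.Step (α ++ γ) (β ++ γ) :=
  Relation.ReflTransGen.lift (fun x => x ++ γ) (fun _ _ h => Step.right γ h) _ _ h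

theorem Y.der {G : Code} {α w : List ℕ} (h : Y G α w) : Relation.ReflTransGen G.Step α w := by
  induction h with
  | nil => exact Relation.ReflTransGen.refl
  | term ha _ ih => exact der_left [_] ih
  | @nt A β u α w hr _ _ ih1 ih2 =>
    have h1 : G.Step (A :: α) (β ++ α) := ⟨(A, β), hr, [], α, by simp, by simp⟩
    exact (Relation.ReflTransGen.single h1).trans ((der_right α ih1).trans (der_left u ih2))

theorem mem_lang_iff {G : Code} {w : List ℕ} : w ∈ G.lang ↔ Y G [G.start] w := by
  constructor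
  · rintro ⟨h1, h2⟩
    have : ∀ {α : List ℕ}, Relation.ReflTransGen G.Step α w → Y G α w := by
      intro α h
      induction h using Relation.ReflTransGen.head_induction_on with
      | refl => exact Y.self h1
      | head h _ ih => exact Y.of_step h ih
    exact this h2
  · intro h
    exact ⟨h.mem_ts, h.der⟩

/-- a word derived from a word over the terminals is that word -/
theorem Y.eq_self {G : Code} (hG : G.IsGrammar) {α w : List ℕ} (h : Y G α w)
    (hα : ∀ a ∈ α, a ∈ G.ts) : w = α := by
  induction h with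
  | nil => rfl
  | term _ _ ih => rw [ih (fun b hb => hα b (by simp [hb]))]
  | @nt A β u α w hr _ _ _ _ =>
    exact absurd (hα A (by simp)) (hG.1 A (hG.2.2 _ hr).1)

theorem Y.term_inv {G : Code} (hG : G.IsGrammar) {a : ℕ} {α w : List ℕ} (ha : a ∈ G.ts)
    (h : Y G (a :: α) w) : ∃ w', w = a :: w' ∧ Y G α w' := by
  cases h with
  | term _ h' => exact ⟨_, rfl, h'⟩
  | nt hr _ _ => exact absurd ha (hG.1 a (hG.2.2 _ hr).1)

theorem Y.single_inv {G : Code} (hG : G.IsGrammar) {A : ℕ} {w : List ℕ} (hA : A ∈ G.nts)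
    (h : Y G [A] w) : ∃ β, (A, β) ∈ G.prods ∧ Y G β w := by
  cases h with
  | term ha _ => exact absurd ha (hG.1 A hA)
  | nt hr hβ h' =>
    cases h'
    exact ⟨_, hr, by simpa using hβ⟩

end Pool.Agent.H64GF
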