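import Mathlib
import Pool.Agent.H64GF.Defs

/-!
# The two grammars of an instance of the Post correspondence problem
-/

set_option autoImplicit false

namespace Pool.Agent.H64GF

/-- instances of the Post correspondence problem with four pairs -/
abbrev Inst : Type := (Fin 4 → List ℕ) × (Fin 4 → List ℕ)

/-- the word which lists all terminals -/
def pw : List ℕ := [0, 1, 2, 3, 4, 5, 6, 7]

/-- the nonterminals -/
def nts0 : List ℕ := [8, 9, 10, 11, 12, 13]

/-- the terminals -/
def ts0 : List ℕ := [0, 1, 2, 3, 4, 5, 6, 7]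

/-- productions which do not depend on the instance -/
def wprods : List (ℕ × List ℕ) :=
  [(9, [3, 9]), (9, [4, 9]), (9, [5, 9]), (9, [6, 9]), (9, [7, 10]), (9, [7]),
   (10, [0, 10]), (10, [1, 10]), (10, [2, 10]), (10, [0]), (10, [1]), (10, [2]),
   (11, [3, 11]), (11, [4, 11]), (11, [5, 11]), (11, [6, 11]), (11, [7])]

/-- a mismatch at the letter number `j` of `v` -/
def mis (M i : ℕ) (v : List ℕ) (j c : ℕ) : ℕ × List ℕ :=
  if v.getD j 0 = c then (M, (i + 3) :: 11 :: v.drop (j + 1))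
  else (M, (i + 3) :: 9 :: c :: v.drop (j + 1))

/-- the productions for the index `i` with the word `v` -/
def block (M i : ℕ) (v : List ℕ) : List (ℕ × List ℕ) :=
  (M, (i + 3) :: M :: v) :: (List.range v.length).flatMap (fun j =>
    [(M, (i + 3) :: 11 :: v.drop (j + 1)), mis M i v j 0, mis M i v j 1, mis M i v j 2])

/-- the productions of `M` -/
def mprods (M : ℕ) (f : Fin 4 → List ℕ) : List (ℕ × List ℕ) :=
  (M, [7, 10]) :: (block M 0 (f 0) ++ (block M 1 (f 1) ++ (block M 2 (f 2) ++ block M 3 (f 3))))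

/-- the productions of the first grammar -/
def PA (J : Inst) : List (ℕ × List ℕ) :=
  (8, pw ++ [7]) :: (8, pw ++ [12]) :: (8, pw ++ [13]) ::
    (wprods ++ (mprods 12 J.1 ++ mprods 13 J.2))

/-- the first grammar -/
def GA (J : Inst) : Code := ((nts0, ts0), (PA J, 8))

/-- the second grammar: it has one more production -/
def GB (J : Inst) : Code := ((nts0, ts0), ((8, pw ++ [9]) :: PA J, 8))

theorem mem_block {M i : ℕ} {v : List ℕ} {r : ℕ × List ℕ} :
    r ∈ block M i v ↔ r = (M, (i + 3) :: M :: v) ∨ ∃ j < v.length,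
      r = (M, (i + 3) :: 11 :: v.drop (j + 1)) ∨
        ∃ c ≤ 2, v.getD j 0 ≠ c ∧ r = (M, (i + 3) :: 9 :: c :: v.drop (j + 1)) := by
  unfold block
  rw [List.mem_cons, List.mem_flatMap]
  refine or_congr Iff.rfl ?_
  constructor
  · rintro ⟨j, hj, h⟩
    rw [List.mem_range] at hj
    refine ⟨j, hj, ?_⟩
    have key : ∀ c ≤ 2, r = mis M i v j c → r = (M, (i + 3) :: 11 :: v.drop (j + 1)) ∨
        ∃ c ≤ 2, v.getD j 0 ≠ c ∧ r = (M, (i + 3) :: 9 :: c :: v.drop (j + 1)) := by
      intro c hc hr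
      unfold mis at hr
      split_ifs at hr with h
      · exact Or.inl hr
      · exact Or.inr ⟨c, hc, h, hr⟩
    simp only [List.mem_cons, List.not_mem_nil, or_false] at h
    rcases h with h | h | h | h
    · exact Or.inl h
    · exact key 0 (by norm_num) h
    · exact key 1 (by norm_num) h
    · exact key 2 (by norm_num) h
  · rintro ⟨j, hj, h⟩
    refine ⟨j, List.mem_range.2 hj, ?_⟩
    rcases h with h | ⟨c, hc, h1, h2⟩
    · rw [h]; simp
    · have : r = mis M i v j c := by
        unfold mis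
        rw [if_neg h1, h2]
      rw [this]
      interval_cases c <;> simp

theorem mem_mprods {M : ℕ} {f : Fin 4 → List ℕ} {r : ℕ × List ℕ} :
    r ∈ mprods M f ↔ r = (M, [7, 10]) ∨ ∃ i : Fin 4, r ∈ block M i (f i) := by
  unfold mprods
  rw [List.mem_cons, List.mem_append, List.mem_append, List.mem_append]
  refine or_congr Iff.rfl ?_
  constructor
  · rintro (h | h | h | h)
    · exact ⟨0, h⟩
    · exact ⟨1, h⟩
    · exact ⟨2, h⟩
    · exact ⟨3, h⟩
  · rintro ⟨i, h⟩
    fin_cases i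
    · exact Or.inl h
    · exact Or.inr (Or.inl h)
    · exact Or.inr (Or.inr (Or.inl h))
    · exact Or.inr (Or.inr (Or.inr h))

theorem fst_mprods {M : ℕ} {f : Fin 4 → List ℕ} {r : ℕ × List ℕ} (h : r ∈ mprods M f) :
    r.1 = M := by
  rcases mem_mprods.1 h with rfl | ⟨i, h⟩
  · rfl
  · rcases mem_block.1 h with rfl | ⟨j, _, rfl | ⟨c, _, _, rfl⟩⟩ <;> rfl

theorem mem_PA {J : Inst} {r : ℕ × List ℕ} : r ∈ PA J ↔
    r = (8, pw ++ [7]) ∨ r = (8, pw ++ [12]) ∨ r = (8, pw ++ [13]) ∨ r ∈ wprods ∨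
      r ∈ mprods 12 J.1 ∨ r ∈ mprods 13 J.2 := by
  simp only [PA, List.mem_cons, List.mem_append]

theorem mem_GB {J : Inst} {r : ℕ × List ℕ} : r ∈ (GB J).prods ↔
    r = (8, pw ++ [9]) ∨ r ∈ PA J := by
  simp only [GB, Code.prods, List.mem_cons]

theorem mem_GA {J : Inst} {r : ℕ × List ℕ} : r ∈ (GA J).prods ↔ r ∈ PA J := Iff.rfl

/-- the words of the instance are nonempty words over `0, 1, 2` -/
def Ok (f : Fin 4 → List ℕ) : Prop := ∀ i, f i ≠ [] ∧ ∀ x ∈ f i, x ≤ 2

theorem wprods_fst {r : ℕ × List ℕ} (h : r ∈ wprods) : r.1 = 9 ∨ r.1 = 10 ∨ r.1 = 11 := by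
  simp only [wprods, List.mem_cons, List.not_mem_nil, or_false] at h
  rcases h with rfl | rfl | rfl | rfl | rfl | rfl | rfl | rfl | rfl | rfl | rfl | rfl | rfl |
    rfl | rfl | rfl | rfl <;> simp

/-- the letters of the right sides of `M` -/
theorem mprods_letters {M : ℕ} {f : Fin 4 → List ℕ} (hf : Ok f) {r : ℕ × List ℕ}
    (h : r ∈ mprods M f) : r.2 ≠ [] ∧
      ∀ x ∈ r.2, x = 9 ∨ x = 10 ∨ x = 11 ∨ x = M ∨ x ≤ 7 := by
  rcases mem_mprods.1 h with rfl | ⟨i, h⟩
  · simp
  · have hi : (i : ℕ) + 3 ≤ 7 := by omega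
    have hd : ∀ n, ∀ x ∈ (f i).drop n, x ≤ 7 := fun n x hx =>
      ((hf i).2 x (List.mem_of_mem_drop hx)).trans (by norm_num)
    rcases mem_block.1 h with rfl | ⟨j, _, rfl | ⟨c, hc, _, rfl⟩⟩
    · refine ⟨by simp, ?_⟩
      intro x hx
      rcases List.mem_cons.1 hx with rfl | hx
      · simp [hi]
      rcases List.mem_cons.1 hx with rfl | hx
      · simp
      · have := hd 0 x (by simpa using hx)
        simp [this]
    · refine ⟨by simp, ?_⟩
      intro x hx
      rcases List.mem_cons.1 hx with rfl | hx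
      · simp [hi]
      rcases List.mem_cons.1 hx with rfl | hx
      · simp
      · have := hd _ x hx
        simp [this]
    · refine ⟨by simp, ?_⟩
      intro x hx
      rcases List.mem_cons.1 hx with rfl | hx
      · simp [hi]
      rcases List.mem_cons.1 hx with rfl | hx
      · simp
      rcases List.mem_cons.1 hx with rfl | hx
      · have : x ≤ 7 := by omega
        simp [this]
      · have := hd _ x hx
        simp [this]

theorem mem_ts0 {x : ℕ} : x ∈ ts0 ↔ x ≤ 7 := by
  simp only [ts0, List.mem_cons, List.not_mem_nil, or_false]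
  omega

theorem mem_nts0 {x : ℕ} : x ∈ nts0 ↔ 8 ≤ x ∧ x ≤ 13 := by
  simp only [nts0, List.mem_cons, List.not_mem_nil, or_false]
  omega

theorem wprods_ok : ∀ r ∈ wprods, r.2 ≠ [] ∧ (∀ x ∈ r.2, x = 9 ∨ x = 10 ∨ x = 11 ∨ x ≤ 7) := by
  unfold wprods
  decide

theorem PA_ok {J : Inst} (h1 : Ok J.1) (h2 : Ok J.2) {r : ℕ × List ℕ} (h : r ∈ PA J) :
    r.1 ∈ nts0 ∧ r.2 ≠ [] ∧ ∀ x ∈ r.2, (9 ≤ x ∧ x ≤ 13) ∨ x ≤ 7 := by
  rcases mem_PA.1 h with rfl | rfl | rfl | h | h | h
  · refine ⟨by simp [nts0], by simp, ?_⟩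
    simp [pw]
  · refine ⟨by simp [nts0], by simp, ?_⟩
    simp [pw]
  · refine ⟨by simp [nts0], by simp, ?_⟩
    simp [pw]
  · obtain ⟨h3, h4⟩ := wprods_ok r h
    refine ⟨?_, h3, ?_⟩
    · rw [mem_nts0]
      rcases wprods_fst h with h | h | h <;> omega
    · intro x hx
      rcases h4 x hx with h | h | h | h <;> omega
  · obtain ⟨h3, h4⟩ := mprods_letters h1 h
    refine ⟨?_, h3, ?_⟩
    · rw [mem_nts0, fst_mprods h]; omega
    · intro x hx
      rcases h4 x hx with h | h | h | h | h <;> omega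
  · obtain ⟨h3, h4⟩ := mprods_letters h2 h
    refine ⟨?_, h3, ?_⟩
    · rw [mem_nts0, fst_mprods h]; omega
    · intro x hx
      rcases h4 x hx with h | h | h | h | h <;> omega

theorem GA_grammar {J : Inst} (h1 : Ok J.1) (h2 : Ok J.2) : (GA J).IsGrammar := by
  refine ⟨?_, ?_, ?_⟩
  · intro x hx hx'
    have h3 := mem_nts0.1 hx
    have h4 := mem_ts0.1 hx'
    omega
  · exact mem_nts0.2 (by simp [GA, Code.start])
  · intro r hr
    obtain ⟨h3, h4, h5⟩ := PA_ok h1 h2 (mem_GA.1 hr)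
    refine ⟨h3, h4, fun x hx => ?_⟩
    rcases h5 x hx with h | h
    · left; exact mem_nts0.2 (by omega)
    · right; exact mem_ts0.2 h

theorem GB_grammar {J : Inst} (h1 : Ok J.1) (h2 : Ok J.2) : (GB J).IsGrammar := by
  refine ⟨?_, ?_, ?_⟩
  · intro x hx hx'
    have h3 := mem_nts0.1 hx
    have h4 := mem_ts0.1 hx'
    omega
  · exact mem_nts0.2 (by simp [GB, Code.start])
  · intro r hr
    rcases mem_GB.1 hr with rfl | hr
    · refine ⟨mem_nts0.2 (by norm_num), by simp, ?_⟩
      intro x hx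
      rcases List.mem_append.1 hx with h | h
      · right; exact h
      · left
        rw [List.mem_singleton] at h
        subst h
        exact mem_nts0.2 (by norm_num)
    · obtain ⟨h3, h4, h5⟩ := PA_ok h1 h2 hr
      refine ⟨h3, h4, fun x hx => ?_⟩
      rcases h5 x hx with h | h
      · left; exact mem_nts0.2 (by omega)
      · right; exact mem_ts0.2 h

theorem countP_zero {l : List ℕ} (h : ∀ x ∈ l, x ≤ 7) :
    l.countP (fun x => decide (x ∈ nts0)) = 0 := by
  rw [List.countP_eq_zero]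
  intro x hx
  have := h x hx
  rw [decide_eq_true_eq, mem_nts0]
  omega

theorem wprods_lin : ∀ r ∈ wprods, r.2.countP (fun x => decide (x ∈ nts0)) ≤ 1 := by
  unfold wprods
  decide

theorem PA_lin {J : Inst} (h1 : Ok J.1) (h2 : Ok J.2) {r : ℕ × List ℕ} (h : r ∈ PA J) :
    r.2.countP (fun x => decide (x ∈ nts0)) ≤ 1 := by
  have key : ∀ (M : ℕ) (f : Fin 4 → List ℕ), Ok f → r ∈ mprods M f →
      r.2.countP (fun x => decide (x ∈ nts0)) ≤ 1 := by
    intro M f hf h
    rcases mem_mprods.1 h with rfl | ⟨i, h⟩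
    · simp only [nts0]; decide
    · have hi : ¬ ((i : ℕ) + 3 ∈ nts0) := by rw [mem_nts0]; omega
      have hd : ∀ n, ∀ x ∈ (f i).drop n, x ≤ 7 := fun n x hx =>
        ((hf i).2 x (List.mem_of_mem_drop hx)).trans (by norm_num)
      rcases mem_block.1 h with rfl | ⟨j, _, rfl | ⟨c, hc, _, rfl⟩⟩
      · rw [List.countP_cons_of_neg (by simpa using hi), List.countP_cons]
        have := countP_zero (l := f i) (fun x hx => hd 0 x (by simpa using hx))
        rw [this]
        split_ifs <;> simp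
      · rw [List.countP_cons_of_neg (by simpa using hi), List.countP_cons, countP_zero (hd _)]
        split_ifs <;> simp
      · have hc' : ¬ (c ∈ nts0) := by rw [mem_nts0]; omega
        rw [List.countP_cons_of_neg (by simpa using hi), List.countP_cons,
          List.countP_cons_of_neg (by simpa using hc'), countP_zero (hd _)]
        split_ifs <;> simp
  rcases mem_PA.1 h with rfl | rfl | rfl | h | h | h
  · simp only [pw, nts0]; decide
  · simp only [pw, nts0]; decide
  · simp only [pw, nts0]; decide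
  · exact wprods_lin r h
  · exact key _ _ h1 h
  · exact key _ _ h2 h

theorem GA_linear {J : Inst} (h1 : Ok J.1) (h2 : Ok J.2) : (GA J).IsLinear :=
  fun _ hr => PA_lin h1 h2 (mem_GA.1 hr)

theorem GB_linear {J : Inst} (h1 : Ok J.1) (h2 : Ok J.2) : (GB J).IsLinear := by
  intro r hr
  rcases mem_GB.1 hr with rfl | hr
  · change (pw ++ [9]).countP (fun x => decide (x ∈ nts0)) ≤ 1
    simp only [pw, nts0]; decide
  · exact PA_lin h1 h2 hr

end Pool.Agent.H64GF
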