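import Mathlib
import Pool.Agent.H64GF.Pcp

/-!
# The languages of the nonterminals
-/

set_option autoImplicit false
set_option linter.unusedSectionVars false

namespace Pool.Agent.H64GF

/-- codes of indices -/
def cx (x : List (Fin 4)) : List ℕ := x.map (fun i : Fin 4 => (i : ℕ) + 3)

theorem cx_cons (i : Fin 4) (x : List (Fin 4)) : cx (i :: x) = ((i : ℕ) + 3) :: cx x := rfl

/-- the productions of `9`, `10`, `11` are the standard ones -/
def StdW (G : Code) : Prop :=
  ∀ A β, A = 9 ∨ A = 10 ∨ A = 11 → ((A, β) ∈ G.prods ↔ (A, β) ∈ wprods)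

theorem std_PA {J : Inst} {A : ℕ} {β : List ℕ} (hA : A = 9 ∨ A = 10 ∨ A = 11) :
    (A, β) ∈ PA J ↔ (A, β) ∈ wprods := by
  rw [mem_PA]
  constructor
  · rintro (h | h | h | h | h | h)
    · have := congrArg Prod.fst h; simp at this; omega
    · have := congrArg Prod.fst h; simp at this; omega
    · have := congrArg Prod.fst h; simp at this; omega
    · exact h
    · have := fst_mprods h; simp at this; omega
    · have := fst_mprods h; simp at this; omega
  · intro h
    exact Or.inr (Or.inr (Or.inr (Or.inl h)))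

theorem std_GA (J : Inst) : StdW (GA J) := fun _ _ hA => std_PA hA

theorem std_GB (J : Inst) : StdW (GB J) := by
  intro A β hA
  rw [mem_GB, std_PA hA]
  constructor
  · rintro (h | h)
    · have := congrArg Prod.fst h; simp at this; omega
    · exact h
  · exact Or.inr

theorem inv9 {G : Code} (h : StdW G) {β : List ℕ} (hr : (9, β) ∈ G.prods) :
    (∃ i : Fin 4, β = [(i : ℕ) + 3, 9]) ∨ β = [7, 10] ∨ β = [7] := by
  rw [h 9 β (Or.inl rfl)] at hr
  simp only [wprods, List.mem_cons, Prod.mk.injEq, List.not_mem_nil, or_false] at hr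
  rcases hr with ⟨_, h⟩ | ⟨_, h⟩ | ⟨_, h⟩ | ⟨_, h⟩ | ⟨_, h⟩ | ⟨_, h⟩ | ⟨h', h⟩ | ⟨h', h⟩ | ⟨h', h⟩ |
    ⟨h', h⟩ | ⟨h', h⟩ | ⟨h', h⟩ | ⟨h', h⟩ | ⟨h', h⟩ | ⟨h', h⟩ | ⟨h', h⟩ | ⟨h', h⟩ <;>
    first
      | (exact absurd h' (by decide))
      | (exact Or.inr (Or.inl h))
      | (exact Or.inr (Or.inr h))
      | (exact Or.inl ⟨0, h⟩)
      | (exact Or.inl ⟨1, h⟩)
      | (exact Or.inl ⟨2, h⟩)
      | (exact Or.inl ⟨3, h⟩)

theorem inv10 {G : Code} (h : StdW G) {β : List ℕ} (hr : (10, β) ∈ G.prods) :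
    (∃ c ≤ 2, β = [c, 10]) ∨ ∃ c ≤ 2, β = [c] := by
  rw [h 10 β (Or.inr (Or.inl rfl))] at hr
  simp only [wprods, List.mem_cons, Prod.mk.injEq, List.not_mem_nil, or_false] at hr
  rcases hr with ⟨h', h⟩ | ⟨h', h⟩ | ⟨h', h⟩ | ⟨h', h⟩ | ⟨h', h⟩ | ⟨h', h⟩ | ⟨h', h⟩ | ⟨h', h⟩ |
    ⟨h', h⟩ | ⟨h', h⟩ | ⟨h', h⟩ | ⟨h', h⟩ | ⟨h', h⟩ | ⟨h', h⟩ | ⟨h', h⟩ | ⟨h', h⟩ | ⟨h', h⟩ <;>
    first
      | (exact absurd h' (by decide))
      | (exact Or.inl ⟨0, by norm_num, h⟩)
      | (exact Or.inl ⟨1, by norm_num, h⟩)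
      | (exact Or.inl ⟨2, by norm_num, h⟩)
      | (exact Or.inr ⟨0, by norm_num, h⟩)
      | (exact Or.inr ⟨1, by norm_num, h⟩)
      | (exact Or.inr ⟨2, by norm_num, h⟩)

theorem inv11 {G : Code} (h : StdW G) {β : List ℕ} (hr : (11, β) ∈ G.prods) :
    (∃ i : Fin 4, β = [(i : ℕ) + 3, 11]) ∨ β = [7] := by
  rw [h 11 β (Or.inr (Or.inr rfl))] at hr
  simp only [wprods, List.mem_cons, Prod.mk.injEq, List.not_mem_nil, or_false] at hr
  rcases hr with ⟨h', h⟩ | ⟨h', h⟩ | ⟨h', h⟩ | ⟨h', h⟩ | ⟨h', h⟩ | ⟨h', h⟩ | ⟨h', h⟩ | ⟨h', h⟩ |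
    ⟨h', h⟩ | ⟨h', h⟩ | ⟨h', h⟩ | ⟨h', h⟩ | ⟨h', h⟩ | ⟨h', h⟩ | ⟨h', h⟩ | ⟨h', h⟩ | ⟨h', h⟩ <;>
    first
      | (exact absurd h' (by decide))
      | (exact Or.inr h)
      | (exact Or.inl ⟨0, h⟩)
      | (exact Or.inl ⟨1, h⟩)
      | (exact Or.inl ⟨2, h⟩)
      | (exact Or.inl ⟨3, h⟩)

theorem mk9 {G : Code} (h : StdW G) (i : Fin 4) : (9, [(i : ℕ) + 3, 9]) ∈ G.prods := by
  rw [h 9 _ (Or.inl rfl)]
  fin_cases i <;> simp [wprods]

theorem mk11 {G : Code} (h : StdW G) (i : Fin 4) : (11, [(i : ℕ) + 3, 11]) ∈ G.prods := by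
  rw [h 11 _ (Or.inr (Or.inr rfl))]
  fin_cases i <;> simp [wprods]

theorem mk9a {G : Code} (h : StdW G) : (9, [7, 10]) ∈ G.prods := by
  rw [h 9 _ (Or.inl rfl)]; simp [wprods]

theorem mk9b {G : Code} (h : StdW G) : (9, [7]) ∈ G.prods := by
  rw [h 9 _ (Or.inl rfl)]; simp [wprods]

theorem mk11a {G : Code} (h : StdW G) : (11, [7]) ∈ G.prods := by
  rw [h 11 _ (Or.inr (Or.inr rfl))]; simp [wprods]

theorem mk10 {G : Code} (h : StdW G) {c : ℕ} (hc : c ≤ 2) : (10, [c, 10]) ∈ G.prods := by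
  rw [h 10 _ (Or.inr (Or.inl rfl))]
  interval_cases c <;> simp [wprods]

theorem mk10a {G : Code} (h : StdW G) {c : ℕ} (hc : c ≤ 2) : (10, [c]) ∈ G.prods := by
  rw [h 10 _ (Or.inr (Or.inl rfl))]
  interval_cases c <;> simp [wprods]

section

variable {G : Code} (hG : G.IsGrammar) (hn : G.nts = nts0) (ht : G.ts = ts0) (hW : StdW G)

include hG hn ht hW

theorem Y10 : ∀ (n : ℕ) (w : List ℕ), w.length ≤ n → Y G [10] w → w ≠ [] ∧ ∀ c ∈ w, c ≤ 2 := by
  intro n
  induction n with
  | zero =>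
    intro w hw h
    obtain ⟨β, hβ, h1⟩ := h.single_inv hG (by rw [hn]; simp [nts0])
    have hw0 : w = [] := List.length_eq_zero_iff.1 (by omega)
    rcases inv10 hW hβ with ⟨c, hc, rfl⟩ | ⟨c, hc, rfl⟩
    · obtain ⟨w', h2, _⟩ := h1.term_inv hG (by rw [ht, mem_ts0]; omega)
      rw [hw0] at h2; simp at h2
    · obtain ⟨w', h2, _⟩ := h1.term_inv hG (by rw [ht, mem_ts0]; omega)
      rw [hw0] at h2; simp at h2
  | succ n ih =>
    intro w hw h
    obtain ⟨β, hβ, h1⟩ := h.single_inv hG (by rw [hn]; simp [nts0])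
    rcases inv10 hW hβ with ⟨c, hc, rfl⟩ | ⟨c, hc, rfl⟩
    · obtain ⟨w', rfl, h3⟩ := h1.term_inv hG (by rw [ht, mem_ts0]; omega)
      obtain ⟨h4, h5⟩ := ih w' (by simp at hw; omega) h3
      refine ⟨by simp, ?_⟩
      intro d hd
      rcases List.mem_cons.1 hd with rfl | hd
      · exact hc
      · exact h5 d hd
    · obtain ⟨w', rfl, h3⟩ := h1.term_inv hG (by rw [ht, mem_ts0]; omega)
      cases h3
      simp [hc]

theorem mkY10 : ∀ w : List ℕ, w ≠ [] → (∀ c ∈ w, c ≤ 2) → Y G [10] w := by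
  intro w
  induction w with
  | nil => intro h; exact absurd rfl h
  | cons c w ih =>
    intro _ hc
    have hc0 : c ≤ 2 := hc c (by simp)
    have hct : c ∈ G.ts := by rw [ht, mem_ts0]; omega
    by_cases hw : w = []
    · subst hw
      exact Y.single (mk10a hW hc0) (Y.term hct Y.nil)
    · exact Y.single (mk10 hW hc0) (Y.term hct (ih hw (fun d hd => hc d (by simp [hd]))))

theorem Y9 : ∀ (n : ℕ) (w : List ℕ), w.length ≤ n → Y G [9] w →
    ∃ (x : List (Fin 4)) (y : List ℕ), (∀ c ∈ y, c ≤ 2) ∧ w = cx x ++ 7 :: y := by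
  intro n
  induction n with
  | zero =>
    intro w hw h
    obtain ⟨β, hβ, h1⟩ := h.single_inv hG (by rw [hn]; simp [nts0])
    have hw0 : w = [] := List.length_eq_zero_iff.1 (by omega)
    rcases inv9 hW hβ with ⟨i, rfl⟩ | rfl | rfl
    · obtain ⟨w', h2, _⟩ := h1.term_inv hG (by rw [ht, mem_ts0]; omega)
      rw [hw0] at h2; simp at h2
    · obtain ⟨w', h2, _⟩ := h1.term_inv hG (by rw [ht, mem_ts0])
      rw [hw0] at h2; simp at h2
    · obtain ⟨w', h2, _⟩ := h1.term_inv hG (by rw [ht, mem_ts0])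
      rw [hw0] at h2; simp at h2
  | succ n ih =>
    intro w hw h
    obtain ⟨β, hβ, h1⟩ := h.single_inv hG (by rw [hn]; simp [nts0])
    rcases inv9 hW hβ with ⟨i, rfl⟩ | rfl | rfl
    · obtain ⟨w', rfl, h3⟩ := h1.term_inv hG (by rw [ht, mem_ts0]; omega)
      obtain ⟨x, y, h4, rfl⟩ := ih w' (by simp at hw; omega) h3
      exact ⟨i :: x, y, h4, rfl⟩
    · obtain ⟨w', rfl, h3⟩ := h1.term_inv hG (by rw [ht, mem_ts0])
      obtain ⟨_, h5⟩ := Y10 hG hn ht hW _ w' le_rfl h3
      exact ⟨[], w', h5, rfl⟩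
    · obtain ⟨w', rfl, h3⟩ := h1.term_inv hG (by rw [ht, mem_ts0])
      cases h3
      exact ⟨[], [], by simp, rfl⟩

theorem mkY9 : ∀ (x : List (Fin 4)) (y : List ℕ), (∀ c ∈ y, c ≤ 2) → Y G [9] (cx x ++ 7 :: y) := by
  intro x
  induction x with
  | nil =>
    intro y hy
    have h7 : 7 ∈ G.ts := by rw [ht, mem_ts0]
    by_cases h : y = []
    · subst h
      exact Y.single (mk9b hW) (Y.term h7 Y.nil)
    · exact Y.single (mk9a hW) (Y.term h7 (mkY10 hG hn ht hW y h hy))
  | cons i x ih =>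
    intro y hy
    exact Y.single (mk9 hW i) (Y.term (by rw [ht, mem_ts0]; omega) (ih y hy))

theorem Y11 : ∀ (n : ℕ) (w : List ℕ), w.length ≤ n → Y G [11] w →
    ∃ (x : List (Fin 4)), w = cx x ++ [7] := by
  intro n
  induction n with
  | zero =>
    intro w hw h
    obtain ⟨β, hβ, h1⟩ := h.single_inv hG (by rw [hn]; simp [nts0])
    have hw0 : w = [] := List.length_eq_zero_iff.1 (by omega)
    rcases inv11 hW hβ with ⟨i, rfl⟩ | rfl
    · obtain ⟨w', h2, _⟩ := h1.term_inv hG (by rw [ht, mem_ts0]; omega)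
      rw [hw0] at h2; simp at h2
    · obtain ⟨w', h2, _⟩ := h1.term_inv hG (by rw [ht, mem_ts0])
      rw [hw0] at h2; simp at h2
  | succ n ih =>
    intro w hw h
    obtain ⟨β, hβ, h1⟩ := h.single_inv hG (by rw [hn]; simp [nts0])
    rcases inv11 hW hβ with ⟨i, rfl⟩ | rfl
    · obtain ⟨w', rfl, h3⟩ := h1.term_inv hG (by rw [ht, mem_ts0]; omega)
      obtain ⟨x, rfl⟩ := ih w' (by simp at hw; omega) h3
      exact ⟨i :: x, rfl⟩
    · obtain ⟨w', rfl, h3⟩ := h1.term_inv hG (by rw [ht, mem_ts0])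
      cases h3
      exact ⟨[], rfl⟩

theorem mkY11 : ∀ (x : List (Fin 4)), Y G [11] (cx x ++ [7]) := by
  intro x
  induction x with
  | nil =>
    have h7 : 7 ∈ G.ts := by rw [ht, mem_ts0]
    exact Y.single (mk11a hW) (Y.term h7 Y.nil)
  | cons i x ih =>
    exact Y.single (mk11 hW i) (Y.term (by rw [ht, mem_ts0]; omega) ih)

/-- soundness of `M` -/
theorem YM {M : ℕ} {f : Fin 4 → List ℕ} (hf : Ok f) (hM : M ∈ nts0)
    (hMp : ∀ β, (M, β) ∈ G.prods → (M, β) ∈ mprods M f) :
    ∀ (n : ℕ) (w : List ℕ), w.length ≤ n → Y G [M] w →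
    ∃ (x : List (Fin 4)) (y : List ℕ), (∀ c ∈ y, c ≤ 2) ∧ w = cx x ++ 7 :: y ∧
      y ≠ x.reverse.flatMap f := by
  have hdrop : ∀ (i : Fin 4) (n : ℕ), ∀ c ∈ (f i).drop n, c ∈ G.ts := by
    intro i n c hc
    have := (hf i).2 c (List.mem_of_mem_drop hc)
    rw [ht, mem_ts0]; omega
  intro n
  induction n with
  | zero =>
    intro w hw h
    obtain ⟨β, hβ, h1⟩ := h.single_inv hG (by rw [hn]; exact hM)
    have hw0 : w = [] := List.length_eq_zero_iff.1 (by omega)
    exfalso
    rcases mem_mprods.1 (hMp β hβ) with h | ⟨i, h⟩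
    · obtain rfl : β = [7, 10] := congrArg Prod.snd h
      obtain ⟨w', h2, _⟩ := h1.term_inv hG (by rw [ht, mem_ts0])
      rw [hw0] at h2; simp at h2
    · have hi : (i : ℕ) + 3 ∈ G.ts := by rw [ht, mem_ts0]; omega
      rcases mem_block.1 h with h | ⟨j, _, h | ⟨c, _, _, h⟩⟩
      · obtain rfl : β = _ := congrArg Prod.snd h
        obtain ⟨w', h2, _⟩ := h1.term_inv hG hi
        rw [hw0] at h2; simp at h2
      · obtain rfl : β = _ := congrArg Prod.snd h
        obtain ⟨w', h2, _⟩ := h1.term_inv hG hi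
        rw [hw0] at h2; simp at h2
      · obtain rfl : β = _ := congrArg Prod.snd h
        obtain ⟨w', h2, _⟩ := h1.term_inv hG hi
        rw [hw0] at h2; simp at h2
  | succ n ih =>
    intro w hw h
    obtain ⟨β, hβ, h1⟩ := h.single_inv hG (by rw [hn]; exact hM)
    rcases mem_mprods.1 (hMp β hβ) with h | ⟨i, h⟩
    · obtain rfl : β = [7, 10] := congrArg Prod.snd h
      obtain ⟨w', rfl, h2⟩ := h1.term_inv hG (by rw [ht, mem_ts0])
      obtain ⟨h4, h5⟩ := Y10 hG hn ht hW _ w' le_rfl h2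
      exact ⟨[], w', h5, rfl, by simpa using h4⟩
    · have hi : (i : ℕ) + 3 ∈ G.ts := by rw [ht, mem_ts0]; omega
      rcases mem_block.1 h with h | ⟨j, hj, h | ⟨c, hc, hne, h⟩⟩
      · obtain rfl : β = _ := congrArg Prod.snd h
        obtain ⟨w', rfl, h2⟩ := h1.term_inv hG hi
        obtain ⟨u, v, rfl, h3, h4⟩ := Y.split (α := [M]) (β := f i) h2
        have hv : v = f i := h4.eq_self hG (fun a ha => hdrop i 0 a (by simpa using ha))
        subst hv
        obtain ⟨x, y, hy, rfl, hxy⟩ := ih u (by simp at hw; omega) h3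
        refine ⟨i :: x, y ++ f i, ?_, by simp [cx_cons], ?_⟩
        · intro c hc
          rcases List.mem_append.1 hc with h | h
          · exact hy c h
          · exact (hf i).2 c h
        · rw [List.reverse_cons, List.flatMap_append]
          intro heq
          apply hxy
          have : List.flatMap f [i] = f i := by simp
          rw [this] at heq
          exact List.append_cancel_right heq
      · obtain rfl : β = _ := congrArg Prod.snd h
        obtain ⟨w', rfl, h2⟩ := h1.term_inv hG hi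
        obtain ⟨u, v, rfl, h3, h4⟩ := Y.split (α := [11]) (β := (f i).drop (j + 1)) h2
        have hv : v = (f i).drop (j + 1) := h4.eq_self hG (hdrop i _)
        subst hv
        obtain ⟨x, rfl⟩ := Y11 hG hn ht hW _ u le_rfl h3
        refine ⟨i :: x, (f i).drop (j + 1), ?_, by simp [cx_cons], ?_⟩
        · intro c hc
          exact (hf i).2 c (List.mem_of_mem_drop hc)
        · rw [List.reverse_cons, List.flatMap_append]
          intro heq
          have := congrArg List.length heq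
          simp only [List.length_drop, List.length_append, List.flatMap_cons, List.flatMap_nil,
            List.append_nil] at this
          omega
      · obtain rfl : β = _ := congrArg Prod.snd h
        obtain ⟨w', rfl, h2⟩ := h1.term_inv hG hi
        obtain ⟨u, v, rfl, h3, h4⟩ := Y.split (α := [9]) (β := c :: (f i).drop (j + 1)) h2
        have hv : v = c :: (f i).drop (j + 1) := by
          apply h4.eq_self hG
          intro a ha
          rcases List.mem_cons.1 ha with rfl | ha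
          · rw [ht, mem_ts0]; omega
          · exact hdrop i _ a ha
        subst hv
        obtain ⟨x, y, hy, rfl⟩ := Y9 hG hn ht hW _ u le_rfl h3
        refine ⟨i :: x, y ++ c :: (f i).drop (j + 1), ?_, by simp [cx_cons], ?_⟩
        · intro d hd
          rcases List.mem_append.1 hd with h | h
          · exact hy d h
          · rcases List.mem_cons.1 h with rfl | h
            · exact hc
            · exact (hf i).2 d (List.mem_of_mem_drop h)
        · rw [List.reverse_cons, List.flatMap_append]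
          intro heq
          have e1 : List.flatMap f [i] = f i := by simp
          rw [e1] at heq
          have e2 : f i = (f i).take j ++ (f i).getD j 0 :: (f i).drop (j + 1) := by
            have := List.take_append_drop j (f i)
            rw [List.drop_eq_getElem_cons hj] at this
            rw [List.getD_eq_getElem _ _ hj]
            exact this.symm
          have e3 : y ++ c :: (f i).drop (j + 1) =
              (x.reverse.flatMap f ++ (f i).take j) ++ (f i).getD j 0 :: (f i).drop (j + 1) := by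
            rw [heq, List.append_assoc, ← e2]
          have e4 := List.append_inj' e3 rfl
          have e5 := e4.2
          rw [List.cons.injEq] at e5
          exact hne e5.1.symm

/-- completeness of `M` -/
theorem mkYM {M : ℕ} {f : Fin 4 → List ℕ} (hf : Ok f)
    (hMp : ∀ β, (M, β) ∈ mprods M f → (M, β) ∈ G.prods) :
    ∀ (x : List (Fin 4)) (y : List ℕ), (∀ c ∈ y, c ≤ 2) → y ≠ x.reverse.flatMap f →
      Y G [M] (cx x ++ 7 :: y) := by
  have h7 : 7 ∈ G.ts := by rw [ht, mem_ts0]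
  have hts : ∀ (v : List ℕ), (∀ c ∈ v, c ≤ 2) → Y G v v := by
    intro v hv
    apply Y.self
    intro a ha
    have := hv a ha
    rw [ht, mem_ts0]; omega
  intro x
  induction x with
  | nil =>
    intro y hy hne
    refine Y.single (hMp _ (mem_mprods.2 (Or.inl rfl))) (Y.term h7 ?_)
    exact mkY10 hG hn ht hW y (by simpa using hne) hy
  | cons i x ih =>
    intro y hy hne
    have hi : (i : ℕ) + 3 ∈ G.ts := by rw [ht, mem_ts0]; omega
    -- the longest matching suffix
    have key : ∀ (v p : List ℕ), f i = p ++ v → (∃ y1, y = y1 ++ v) →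
        (∃ y1, y = y1 ++ f i) ∨ ∃ j < (f i).length, y = (f i).drop (j + 1) ∨
          ∃ y1 c, c ≤ 2 ∧ (f i).getD j 0 ≠ c ∧ y = y1 ++ c :: (f i).drop (j + 1) := by
      intro v p
      induction p using List.reverseRecOn generalizing v with
      | nil =>
        intro h1 ⟨y1, h2⟩
        left
        refine ⟨y1, ?_⟩
        rw [h1, h2]; simp
      | append_singleton p d ihp =>
        intro h1 ⟨y1, h2⟩
        have hlt : p.length < (f i).length := by rw [h1]; simp
        have hdr : (f i).drop (p.length + 1) = v := by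
          rw [h1]
          have : (p ++ [d]).length = p.length + 1 := by simp
          rw [← this, List.drop_left]
        have hget : (f i).getD p.length 0 = d := by
          rw [List.getD_eq_getElem _ _ hlt]
          simp [h1]
        rcases List.eq_nil_or_concat y1 with rfl | ⟨y2, c, rfl⟩
        · right
          exact ⟨p.length, hlt, Or.inl (by rw [hdr, h2]; simp)⟩
        · rw [List.concat_eq_append, List.append_assoc, List.singleton_append] at h2
          by_cases hcd : d = c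
          · subst hcd
            exact ihp (d :: v) (by rw [h1]; simp) ⟨y2, h2⟩
          · right
            refine ⟨p.length, hlt, Or.inr ⟨y2, c, hy c (by rw [h2]; simp), ?_, ?_⟩⟩
            · rw [hget]; exact hcd
            · rw [hdr, h2]
    rcases key [] (f i) (by simp) ⟨y, by simp⟩ with ⟨y1, rfl⟩ | ⟨j, hj, rfl | ⟨y1, c, hc, hcne, rfl⟩⟩
    · have hne' : y1 ≠ x.reverse.flatMap f := by
        intro h
        apply hne
        rw [List.reverse_cons, List.flatMap_append, h]
        simp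
      have hy1 : ∀ c ∈ y1, c ≤ 2 := fun c hc => hy c (by simp [hc])
      have h1 := ih y1 hy1 hne'
      have h2 : Y G (M :: f i) ((cx x ++ 7 :: y1) ++ f i) :=
        Y.append (α := [M]) h1 (hts _ (hf i).2)
      have h3 : Y G (((i : ℕ) + 3) :: M :: f i) (((i : ℕ) + 3) :: ((cx x ++ 7 :: y1) ++ f i)) :=
        Y.term hi h2
      have h4 := Y.single (hMp _ (mem_mprods.2 (Or.inr ⟨i, mem_block.2 (Or.inl rfl)⟩))) h3
      have e : cx (i :: x) ++ 7 :: (y1 ++ f i) = ((i : ℕ) + 3) :: ((cx x ++ 7 :: y1) ++ f i) := by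
        simp [cx_cons]
      rw [e]; exact h4
    · have h2 : Y G (11 :: (f i).drop (j + 1)) ((cx x ++ [7]) ++ (f i).drop (j + 1)) :=
        Y.append (α := [11]) (mkY11 hG hn ht hW x) (hts _ hy)
      have h3 := Y.term hi h2
      have h4 := Y.single (hMp _ (mem_mprods.2 (Or.inr ⟨i, mem_block.2
        (Or.inr ⟨j, hj, Or.inl rfl⟩)⟩))) h3
      have e : cx (i :: x) ++ 7 :: (f i).drop (j + 1) =
          ((i : ℕ) + 3) :: ((cx x ++ [7]) ++ (f i).drop (j + 1)) := by
        simp [cx_cons]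
      rw [e]; exact h4
    · have hy1 : ∀ c ∈ y1, c ≤ 2 := fun c hc => hy c (by simp [hc])
      have h2 : Y G (9 :: c :: (f i).drop (j + 1)) ((cx x ++ 7 :: y1) ++ c :: (f i).drop (j + 1)) :=
        Y.append (α := [9]) (mkY9 hG hn ht hW x y1 hy1)
          (hts _ (fun d hd => hy d (List.mem_append_right _ hd)))
      have h3 := Y.term hi h2
      have h4 := Y.single (hMp _ (mem_mprods.2 (Or.inr ⟨i, mem_block.2
        (Or.inr ⟨j, hj, Or.inr ⟨c, hc, hcne, rfl⟩⟩)⟩))) h3
      have e : cx (i :: x) ++ 7 :: (y1 ++ c :: (f i).drop (j + 1)) =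
          ((i : ℕ) + 3) :: ((cx x ++ 7 :: y1) ++ c :: (f i).drop (j + 1)) := by
        simp [cx_cons]
      rw [e]; exact h4

end

end Pool.Agent.H64GF
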