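import Mathlib
import Pool.Agent.H64GF.Lang

/-!
# Products of the first grammar with runs in an interpretation of the second one
-/

set_option autoImplicit false

namespace Pool.Agent.H64GF

/-! ### General facts on interpretations -/

theorem forall₂_append_left {α β : Type} {R : α → β → Prop} {u v : List β} :
    ∀ {w : List α}, List.Forall₂ R w (u ++ v) →
      ∃ a b, w = a ++ b ∧ List.Forall₂ R a u ∧ List.Forall₂ R b v := by
  induction u with
  | nil => intro w h; exact ⟨[], w, rfl, List.Forall₂.nil, h⟩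
  | cons x u ih =>
    intro w h
    cases h with
    | cons h1 h2 =>
      obtain ⟨a, b, rfl, h3, h4⟩ := ih h2
      exact ⟨_ :: a, b, rfl, List.Forall₂.cons h1 h3, h4⟩

theorem forall₂_append {α β : Type} {R : α → β → Prop} {a b : List α} {u v : List β}
    (h : List.Forall₂ R a u) (h' : List.Forall₂ R b v) : List.Forall₂ R (a ++ b) (u ++ v) := by
  induction h with
  | nil => exact h'
  | cons h1 _ ih => exact List.Forall₂.cons h1 ih

theorem Code.InterpBy.isGrammar {G G' : Code} {σ : ℕ → Finset ℕ} (hG : G.IsGrammar)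
    (h : G.InterpBy σ G') : G'.IsGrammar := by
  obtain ⟨h1, h2, h3, h4, h5⟩ := h
  refine ⟨?_, ?_, ?_⟩
  · intro z hz hz'
    obtain ⟨A, hA, hzA⟩ := (h2 z).1 hz
    obtain ⟨a, ha, hza⟩ := (h3 z).1 hz'
    have hne : A ≠ a := by
      rintro rfl
      exact hG.1 A hA ha
    exact Finset.disjoint_left.1 (h1 A (Or.inl hA) a (Or.inr ha) hne) hzA hza
  · exact (h2 _).2 ⟨_, hG.2.1, h4⟩
  · intro r' hr'
    obtain ⟨r, hr, h6, h7⟩ := h5 r' hr'
    obtain ⟨h8, h9, h10⟩ := hG.2.2 r hr
    refine ⟨(h2 _).2 ⟨_, h8, h6⟩, ?_, ?_⟩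
    · intro h0
      rw [h0] at h7
      exact h9 (List.forall₂_nil_left_iff.1 h7)
    · have key : ∀ {b c : List ℕ}, List.Forall₂ (fun z x => z ∈ σ x) b c →
          (∀ x ∈ c, x ∈ G.nts ∨ x ∈ G.ts) → ∀ z ∈ b, z ∈ G'.nts ∨ z ∈ G'.ts := by
        intro b c hbc
        induction hbc with
        | nil => intro _ z hz; simp at hz
        | @cons z x b c hzx _ ih =>
          intro hc z' hz'
          rcases List.mem_cons.1 hz' with rfl | hz'
          · rcases hc x (by simp) with h | h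
            · exact Or.inl ((h2 _).2 ⟨x, h, hzx⟩)
            · exact Or.inr ((h3 _).2 ⟨x, h, hzx⟩)
          · exact ih (fun y hy => hc y (by simp [hy])) z' hz'
      exact key h7 h10

/-- a derivation in an interpretation is mapped to a derivation in the form -/
theorem Y.map {G G' : Code} {σ : ℕ → Finset ℕ} (hG : G.IsGrammar) (h : G.InterpBy σ G')
    {α' w' : List ℕ} (hY : Y G' α' w') : ∀ α, List.Forall₂ (fun z x => z ∈ σ x) α' α →
      (∀ x ∈ α, x ∈ G.nts ∨ x ∈ G.ts) →
      ∃ w, List.Forall₂ (fun z x => z ∈ σ x) w' w ∧ Y G α w := by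
  obtain ⟨h1, h2, h3, h4, h5⟩ := id h
  induction hY with
  | nil =>
    intro α hα _
    cases hα
    exact ⟨[], List.Forall₂.nil, Y.nil⟩
  | @term a' α' w' ha' _ ih =>
    intro α hα hl
    cases hα with
    | @cons _ x _ α ha hα =>
      obtain ⟨w, hw, hw'⟩ := ih α hα (fun y hy => hl y (by simp [hy]))
      obtain ⟨b, hb, hb'⟩ := (h3 a').1 ha'
      have hx : x = b := by
        by_contra hne
        exact Finset.disjoint_left.1 (h1 x (hl x (by simp)) b (Or.inr hb) hne) ha hb'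
      subst hx
      exact ⟨_ :: w, List.Forall₂.cons ha hw, Y.term hb hw'⟩
  | @nt A' β' u' α' w' hr _ _ ih1 ih2 =>
    intro α hα hl
    cases hα with
    | @cons _ x _ α ha hα =>
      obtain ⟨w, hw, hw'⟩ := ih2 α hα (fun y hy => hl y (by simp [hy]))
      obtain ⟨r, hr0, hr1, hr2⟩ := h5 _ hr
      have hx : x = r.1 := by
        by_contra hne
        exact Finset.disjoint_left.1 (h1 x (hl x (by simp)) r.1 (Or.inl (hG.2.2 r hr0).1) hne)
          ha hr1
      subst hx
      obtain ⟨u, hu, hu'⟩ := ih1 r.2 hr2 (hG.2.2 r hr0).2.2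
      exact ⟨u ++ w, forall₂_append hu hw, Y.nt hr0 hu' hw'⟩

theorem finite_forall₂ (τ : ℕ → Finset ℕ) (β : List ℕ) :
    {β' : List ℕ | List.Forall₂ (fun z x => z ∈ τ x) β' β}.Finite := by
  induction β with
  | nil =>
    refine (Set.finite_singleton []).subset ?_
    intro β' h
    cases h
    rfl
  | cons x β ih =>
    refine (((τ x).finite_toSet).image2 List.cons ih).subset ?_
    intro β' h
    cases h with
    | @cons z _ β'' _ h1 h2 => exact ⟨z, h1, β'', h2, rfl⟩

/-! ### Runs -/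

/-- `Run G s u t`: the word `u` is read from the state `s` to the state `t`, where the states are the
nonterminals and one final state, and the productions `z → a z'` and `z → a` are the moves. -/
inductive Run (G : Code) : Option ℕ → List ℕ → Option ℕ → Prop
  | nil (s : Option ℕ) : Run G s [] s
  | mid {z a z' : ℕ} {u : List ℕ} {t : Option ℕ} : (z, [a, z']) ∈ G.prods → a ∈ G.ts →
      z' ∈ G.nts → Run G (some z') u t → Run G (some z) (a :: u) t
  | fin {z a : ℕ} {u : List ℕ} {t : Option ℕ} : (z, [a]) ∈ G.prods → a ∈ G.ts →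
      Run G none u t → Run G (some z) (a :: u) t

/-- a state -/
def InSt (G : Code) (s : Option ℕ) : Prop := ∀ z, s = some z → z ∈ G.nts

theorem Run.trans {G : Code} {s t r : Option ℕ} {u v : List ℕ} (h : Run G s u t)
    (h' : Run G t v r) : Run G s (u ++ v) r := by
  induction h with
  | nil => exact h'
  | mid h1 h2 h3 _ ih => exact Run.mid h1 h2 h3 (ih h')
  | fin h1 h2 _ ih => exact Run.fin h1 h2 (ih h')

theorem Run.split {G : Code} {u v : List ℕ} : ∀ {s r : Option ℕ}, InSt G s → Run G s (u ++ v) r →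
    ∃ t, InSt G t ∧ Run G s u t ∧ Run G t v r := by
  induction u with
  | nil => intro s r hs h; exact ⟨s, hs, Run.nil s, h⟩
  | cons a u ih =>
    intro s r hs h
    rw [List.cons_append] at h
    cases h with
    | @mid z _ z' _ _ h1 h2 h3 h4 =>
      obtain ⟨t, ht, h5, h6⟩ := ih (s := some z') (by intro y hy; cases hy; exact h3) h4
      exact ⟨t, ht, Run.mid h1 h2 h3 h5, h6⟩
    | fin h1 h2 h4 =>
      obtain ⟨t, ht, h5, h6⟩ := ih (s := none) (by intro y hy; cases hy) h4
      exact ⟨t, ht, Run.fin h1 h2 h5, h6⟩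

theorem Run.none_eq {G : Code} {u : List ℕ} {t : Option ℕ} (h : Run G none u t) : u = [] := by
  cases h
  rfl

theorem Run.toY {G : Code} {s t : Option ℕ} {u : List ℕ} (h : Run G s u t) :
    t = none → ∀ z, s = some z → Y G [z] u := by
  induction h with
  | nil s =>
    intro h1 z h2
    rw [h1] at h2
    cases h2
  | @mid z a z' u t h1 h2 _ _ ih =>
    intro ht y hy
    cases hy
    exact Y.single h1 (Y.term h2 (ih ht z' rfl))
  | @fin z a u t h1 h2 h3 _ =>
    intro ht y hy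
    cases hy
    rw [h3.none_eq]
    exact Y.single h1 (Y.term h2 Y.nil)

/-! ### Lifting of words -/

/-- letters for the new nonterminals -/
def enc (K : ℕ) (s : Option ℕ) (A : ℕ) (t : Option ℕ) : ℕ := K + Encodable.encode (s, A, t)

theorem enc_inj {K : ℕ} {s s' t t' : Option ℕ} {A A' : ℕ} (h : enc K s A t = enc K s' A' t') :
    s = s' ∧ A = A' ∧ t = t' := by
  unfold enc at h
  have h1 := Encodable.encode_injective (Nat.add_left_cancel h)
  simpa using h1

theorem le_enc {K : ℕ} {s t : Option ℕ} {A : ℕ} : K ≤ enc K s A t := Nat.le_add_right _ _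

/-- `Lift G σ K s β t β'`: the sentential form `β'` is a lift of `β`, from the state `s` to the
state `t`. -/
inductive Lift (G : Code) (σ : ℕ → Finset ℕ) (K : ℕ) :
    Option ℕ → List ℕ → Option ℕ → List ℕ → Prop
  | nil (s : Option ℕ) : Lift G σ K s [] s []
  | term {s r t : Option ℕ} {a a' : ℕ} {β β' : List ℕ} : a ∈ ts0 → a' ∈ σ a → Run G s [a'] r →
      Lift G σ K r β t β' → Lift G σ K s (a :: β) t (a' :: β')
  | nt {s r t : Option ℕ} {B : ℕ} {β β' : List ℕ} : B ∈ nts0 → InSt G s → InSt G r →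
      Lift G σ K r β t β' → Lift G σ K s (B :: β) t (enc K s B r :: β')

open Classical in
/-- the substitution for the product -/
noncomputable def tau (G : Code) (σ : ℕ → Finset ℕ) (K : ℕ) (x : ℕ) : Finset ℕ :=
  σ x ∪ (if x ∈ nts0 then
    ((Finset.insertNone G.nts.toFinset) ×ˢ (Finset.insertNone G.nts.toFinset)).image
      (fun p => enc K p.1 x p.2) else ∅)

theorem mem_st {G : Code} {s : Option ℕ} : s ∈ Finset.insertNone G.nts.toFinset ↔ InSt G s := by
  rw [Finset.mem_insertNone]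
  unfold InSt
  constructor
  · intro h z hz
    exact List.mem_toFinset.1 (h z hz)
  · intro h z hz
    exact List.mem_toFinset.2 (h z hz)

theorem mem_tau {G : Code} {σ : ℕ → Finset ℕ} {K x z : ℕ} : z ∈ tau G σ K x ↔
    z ∈ σ x ∨ (x ∈ nts0 ∧ ∃ s t, InSt G s ∧ InSt G t ∧ z = enc K s x t) := by
  classical
  unfold tau
  rw [Finset.mem_union]
  refine or_congr Iff.rfl ?_
  by_cases hx : x ∈ nts0
  · rw [if_pos hx, Finset.mem_image]
    constructor
    · rintro ⟨p, hp, rfl⟩
      rw [Finset.mem_product, mem_st, mem_st] at hp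
      exact ⟨hx, p.1, p.2, hp.1, hp.2, rfl⟩
    · rintro ⟨_, s, t, hs, ht, rfl⟩
      exact ⟨(s, t), by rw [Finset.mem_product, mem_st, mem_st]; exact ⟨hs, ht⟩, rfl⟩
  · rw [if_neg hx]
    simp [hx]

theorem Lift.forall₂ {G : Code} {σ : ℕ → Finset ℕ} {K : ℕ} {s t : Option ℕ} {β β' : List ℕ}
    (h : Lift G σ K s β t β') : List.Forall₂ (fun z x => z ∈ tau G σ K x) β' β := by
  induction h with
  | nil => exact List.Forall₂.nil
  | term _ h2 _ _ ih => exact List.Forall₂.cons (mem_tau.2 (Or.inl h2)) ih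
  | nt h1 h2 h3 _ ih => exact List.Forall₂.cons (mem_tau.2 (Or.inr ⟨h1, _, _, h2, h3, rfl⟩)) ih

/-- the productions of the product grammar -/
def Cond (J : Inst) (G : Code) (σ : ℕ → Finset ℕ) (K : ℕ) (r : ℕ × List ℕ) : Prop :=
  r ∈ G.prods ∨
  (∃ (z M : ℕ) (p : List ℕ), (G.start, p ++ [z]) ∈ G.prods ∧ (∀ x ∈ p, x ∈ G.ts) ∧
    z ∈ G.nts ∧ M ∈ nts0 ∧ r = (G.start, p ++ [enc K (some z) M none])) ∨
  (∃ (z c : ℕ) (p : List ℕ), (G.start, p ++ [z]) ∈ G.prods ∧ (∀ x ∈ p, x ∈ G.ts) ∧ c ∈ G.ts ∧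
    (z, [c]) ∈ G.prods ∧ r = (G.start, p ++ [c])) ∨
  (∃ (s t : Option ℕ) (A : ℕ) (β β' : List ℕ), (A, β) ∈ PA J ∧ Lift G σ K s β t β' ∧
    r = (enc K s A t, β'))

theorem exists_product (J : Inst) (G : Code) (σ : ℕ → Finset ℕ) (K : ℕ) :
    ∃ H : Code, (∀ z, z ∈ H.nts ↔ ∃ A ∈ nts0, z ∈ tau G σ K A) ∧ H.ts = G.ts ∧
      H.start = G.start ∧
      ∀ r, r ∈ H.prods ↔ (∃ r0 ∈ PA J, r.1 ∈ tau G σ K r0.1 ∧
        List.Forall₂ (fun z x => z ∈ tau G σ K x) r.2 r0.2) ∧ Cond J G σ K r := by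
  classical
  have hfin : {r : ℕ × List ℕ | (∃ r0 ∈ PA J, r.1 ∈ tau G σ K r0.1 ∧
        List.Forall₂ (fun z x => z ∈ tau G σ K x) r.2 r0.2) ∧ Cond J G σ K r}.Finite := by
    have h1 : (⋃ r0 ∈ {r0 | r0 ∈ PA J}, ((tau G σ K r0.1 : Set ℕ) ×ˢ
        {β' : List ℕ | List.Forall₂ (fun z x => z ∈ tau G σ K x) β' r0.2})).Finite := by
      refine Set.Finite.biUnion (List.finite_toSet (PA J)) ?_
      intro r0 _
      exact (Finset.finite_toSet _).prod (finite_forall₂ _ _)
    refine h1.subset ?_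
    rintro r ⟨⟨r0, hr0, h2, h3⟩, _⟩
    exact Set.mem_biUnion (x := r0) hr0 ⟨h2, h3⟩
  refine ⟨(((nts0.toFinset.biUnion (tau G σ K)).toList, G.ts), (hfin.toFinset.toList, G.start)),
    ?_, rfl, rfl, ?_⟩
  · intro z
    simp only [Code.nts, Finset.mem_toList, Finset.mem_biUnion, List.mem_toFinset]
  · intro r
    simp only [Code.prods, Finset.mem_toList, Set.Finite.mem_toFinset, Set.mem_ofPred_eq]

end Pool.Agent.H64GF
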