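import Mathlib
import Pool.Agent.H64GF.Lift

/-!
# Family equivalence of the two grammars
-/

set_option autoImplicit false

namespace Pool.Agent.H64GF

section

variable {J : Inst} (h1 : Ok J.1) (h2 : Ok J.2) {G' : Code} {σ : ℕ → Finset ℕ}
  (hI : (GB J).InterpBy σ G') {K : ℕ} (hK : ∀ z, (z ∈ G'.nts ∨ z ∈ G'.ts) → z < K)
  {H : Code} (hn : ∀ z, z ∈ H.nts ↔ ∃ A ∈ nts0, z ∈ tau G' σ K A) (ht : H.ts = G'.ts)
  (hs : H.start = G'.start)
  (hp : ∀ r, r ∈ H.prods ↔ (∃ r0 ∈ PA J, r.1 ∈ tau G' σ K r0.1 ∧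
        List.Forall₂ (fun z x => z ∈ tau G' σ K x) r.2 r0.2) ∧ Cond J G' σ K r)

theorem gb_nts : (GB J).nts = nts0 := rfl
theorem gb_ts : (GB J).ts = ts0 := rfl
theorem ga_nts : (GA J).nts = nts0 := rfl
theorem ga_ts : (GA J).ts = ts0 := rfl

include hI hK in
theorem sigma_lt {x z : ℕ} (hx : x ∈ nts0 ∨ x ∈ ts0) (hz : z ∈ σ x) : z < K := by
  apply hK
  rcases hx with hx | hx
  · exact Or.inl ((hI.2.1 z).2 ⟨x, hx, hz⟩)
  · exact Or.inr ((hI.2.2.1 z).2 ⟨x, hx, hz⟩)

theorem not_nts_of_ts {x : ℕ} (h : x ∈ ts0) : x ∉ nts0 := by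
  rw [mem_ts0] at h
  rw [mem_nts0]
  omega

theorem tau_ts {x z : ℕ} (hx : x ∈ ts0) : z ∈ tau G' σ K x ↔ z ∈ σ x := by
  rw [mem_tau]
  constructor
  · rintro (h | ⟨h, _⟩)
    · exact h
    · exact absurd h (not_nts_of_ts hx)
  · exact Or.inl

include hI hK hn ht hs hp in
theorem interpH : (GA J).InterpBy (tau G' σ K) H := by
  obtain ⟨i1, i2, i3, i4, i5⟩ := id hI
  refine ⟨?_, hn, ?_, ?_, ?_⟩
  · intro x hx y hy hne
    rw [Finset.disjoint_left]
    intro z hz hz'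
    rcases mem_tau.1 hz with h | ⟨_, s, t, _, _, rfl⟩
    · rcases mem_tau.1 hz' with h' | ⟨_, s, t, _, _, rfl⟩
      · exact Finset.disjoint_left.1 (i1 x hx y hy hne) h h'
      · have := sigma_lt hI hK hx h
        have h3 : K ≤ enc K s y t := le_enc
        omega
    · rcases mem_tau.1 hz' with h' | ⟨_, s', t', _, _, h'⟩
      · have := sigma_lt hI hK hy h'
        have h3 : K ≤ enc K s x t := le_enc
        omega
      · exact hne (enc_inj h').2.1
  · intro z
    rw [ht, i3 z]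
    constructor
    · rintro ⟨a, ha, hz⟩
      exact ⟨a, ha, (tau_ts ha).2 hz⟩
    · rintro ⟨a, ha, hz⟩
      exact ⟨a, ha, (tau_ts ha).1 hz⟩
  · rw [hs]
    exact mem_tau.2 (Or.inl i4)
  · intro r hr
    exact ((hp r).1 hr).1

include h1 h2 hI hK hn ht hs hp in
theorem lift_sound {α w : List ℕ} (hY : Y H α w) : ∀ s β t, Lift G' σ K s β t α →
    Run G' s w t := by
  have hHg : H.IsGrammar := (interpH hI hK hn ht hs hp).isGrammar (GA_grammar h1 h2)
  have hGg : G'.IsGrammar := hI.isGrammar (GB_grammar h1 h2)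
  induction hY with
  | nil =>
    intro s β t hL
    cases hL
    exact Run.nil _
  | @term a α w ha _ ih =>
    intro s β t hL
    cases hL with
    | term _ _ h5 h6 => exact Run.trans (u := [a]) h5 (ih _ _ _ h6)
    | @nt _ r _ B =>
      exfalso
      rw [ht] at ha
      have := hK _ (Or.inr ha)
      have h3 : K ≤ enc K s B r := le_enc
      omega
  | @nt A β u α w hr _ _ ih1 ih2 =>
    intro s β0 t hL
    generalize hA : A :: α = α0 at hL
    cases hL with
    | nil => simp at hA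
    | @term _ r _ a a' _ _ h3 h4 h5 h6 =>
      exfalso
      rw [List.cons.injEq] at hA
      obtain ⟨rfl, rfl⟩ := hA
      have h7 : A ∈ G'.ts := (hI.2.2.1 A).2 ⟨a, h3, h4⟩
      rw [← ht] at h7
      exact hHg.1 A (hHg.2.2 _ hr).1 h7
    | @nt _ r _ B _ _ h3 h4 h5 h6 =>
      rw [List.cons.injEq] at hA
      obtain ⟨rfl, rfl⟩ := hA
      have hge : K ≤ enc K s B r := le_enc
      rcases ((hp _).1 hr).2 with h | ⟨z, M, p, h, _, _, _, h'⟩ | ⟨z, c, p, h, _, _, _, h'⟩ |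
        ⟨s2, t2, B2, γ, γ', h, h', h''⟩
      · have := hK _ (Or.inl (hGg.2.2 _ h).1)
        simp only at this
        omega
      · have := hK _ (Or.inl (hGg.2.2 _ h).1)
        have h8 := congrArg Prod.fst h'
        simp only at this h8
        omega
      · have := hK _ (Or.inl (hGg.2.2 _ h).1)
        have h8 := congrArg Prod.fst h'
        simp only at this h8
        omega
      · rw [Prod.mk.injEq] at h''
        obtain ⟨h8, rfl⟩ := h''
        obtain ⟨rfl, rfl, rfl⟩ := enc_inj h8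
        exact (ih1 _ _ _ h').trans (ih2 _ _ _ h6)

include h1 h2 hI hK hn ht hs hp in
theorem sound {α w : List ℕ} (hY : Y H α w) : (∀ x ∈ α, x ∈ G'.nts ∨ x ∈ G'.ts) → Y G' α w := by
  have hHg : H.IsGrammar := (interpH hI hK hn ht hs hp).isGrammar (GA_grammar h1 h2)
  have hGg : G'.IsGrammar := hI.isGrammar (GB_grammar h1 h2)
  induction hY with
  | nil => intro _; exact Y.nil
  | term ha _ ih =>
    intro hl
    exact Y.term (ht ▸ ha) (ih (fun x hx => hl x (by simp [hx])))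
  | @nt A β u α w hr hβ _ ih1 ih2 =>
    intro hl
    have hA : A < K := hK _ (hl A (by simp))
    have h3 := ih2 (fun x hx => hl x (by simp [hx]))
    rcases ((hp _).1 hr).2 with h | ⟨z, M, p, h, hpt, hz, hM, h'⟩ | ⟨z, c, p, h, hpt, hc, hzc, h'⟩ |
        ⟨s2, t2, B2, γ, γ', h, h', h''⟩
    · exact Y.nt h (ih1 (hGg.2.2 _ h).2.2) h3
    · rw [Prod.mk.injEq] at h'
      obtain ⟨rfl, rfl⟩ := h'
      obtain ⟨u1, u2, rfl, h4, h5⟩ := hβ.split
      have h6 : u1 = p := h4.eq_self hHg (by rw [ht]; exact hpt)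
      subst h6
      have h7 : Run G' (some z) u2 none := by
        refine lift_sound h1 h2 hI hK hn ht hs hp h5 (some z) [M] none ?_
        exact Lift.nt hM (by intro y hy; cases hy; exact hz) (by intro y hy; cases hy)
          (Lift.nil none)
      refine Y.nt h ?_ h3
      exact (Y.self hpt).append (h7.toY rfl z rfl)
    · rw [Prod.mk.injEq] at h'
      obtain ⟨rfl, rfl⟩ := h'
      have h6 : u = p ++ [c] := by
        apply hβ.eq_self hHg
        intro a ha
        rw [ht]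
        rcases List.mem_append.1 ha with h | h
        · exact hpt a h
        · rw [List.mem_singleton] at h; rw [h]; exact hc
      subst h6
      refine Y.nt h ?_ h3
      exact (Y.self hpt).append (Y.single hzc (Y.term hc Y.nil))
    · rw [Prod.mk.injEq] at h''
      have h8 : K ≤ enc K s2 B2 t2 := le_enc
      have := h''.1
      omega


include h1 h2 hI hK hn ht hs hp in
theorem complete {α w : List ℕ} (hY : Y (GA J) α w) : (∀ x ∈ α, x ∈ nts0 ∨ x ∈ ts0) →
    ∀ (w' : List ℕ) (s t : Option ℕ), List.Forall₂ (fun z x => z ∈ σ x) w' w → InSt G' s →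
      Run G' s w' t → ∃ α', Lift G' σ K s α t α' ∧ Y H α' w' := by
  have hGA := GA_grammar h1 h2
  induction hY with
  | nil =>
    intro _ w' s t hw' _ hR
    cases hw'
    cases hR
    exact ⟨[], Lift.nil _, Y.nil⟩
  | @term a α w ha _ ih =>
    intro hl w' s t hw' hs' hR
    cases hw' with
    | @cons a' _ w'' _ h3 h4 =>
      obtain ⟨r, hr, h5, h6⟩ := Run.split (u := [a']) (v := w'') hs' hR
      obtain ⟨α', h7, h8⟩ := ih (fun x hx => hl x (by simp [hx])) w'' r t h4 hr h6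
      refine ⟨a' :: α', Lift.term ha h3 h5 h7, Y.term ?_ h8⟩
      rw [ht]
      exact (hI.2.2.1 a').2 ⟨a, ha, h3⟩
  | @nt B γ u α w hr _ _ ih1 ih2 =>
    intro hl w' s t hw' hs' hR
    obtain ⟨u', v', rfl, h3, h4⟩ := forall₂_append_left hw'
    obtain ⟨r, hr', h5, h6⟩ := Run.split hs' hR
    obtain ⟨γ', h7, h8⟩ := ih1 (hGA.2.2 _ hr).2.2 u' s r h3 hs' h5
    obtain ⟨α', h9, h10⟩ := ih2 (fun x hx => hl x (by simp [hx])) v' r t h4 hr' h6
    have hB : B ∈ nts0 := (hGA.2.2 _ hr).1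
    refine ⟨enc K s B r :: α', Lift.nt hB hs' hr' h9, Y.nt ?_ h8 h10⟩
    rw [hp]
    refine ⟨⟨(B, γ), hr, mem_tau.2 (Or.inr ⟨hB, s, r, hs', hr', rfl⟩), h7.forall₂⟩, ?_⟩
    exact Or.inr (Or.inr (Or.inr ⟨s, r, B, γ, γ', hr, h7, rfl⟩))

include hI in
/-- a letter of the interpretation belongs to one letter only -/
theorem sigma_inj {x y z : ℕ} (hx : x ∈ nts0 ∨ x ∈ ts0) (hy : y ∈ nts0 ∨ y ∈ ts0)
    (hzx : z ∈ σ x) (hzy : z ∈ σ y) : x = y := by
  by_contra hne
  exact Finset.disjoint_left.1 (hI.1 x hx y hy hne) hzx hzy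

theorem forall₂_mono {R S : ℕ → ℕ → Prop} (h : ∀ a b, R a b → S a b) {u v : List ℕ}
    (huv : List.Forall₂ R u v) : List.Forall₂ S u v := by
  induction huv with
  | nil => exact List.Forall₂.nil
  | cons h1 _ ih => exact List.Forall₂.cons (h _ _ h1) ih

theorem forall₂_mem {R : ℕ → ℕ → Prop} {u v : List ℕ}
    (huv : List.Forall₂ R u v) : ∀ a ∈ u, ∃ b ∈ v, R a b := by
  induction huv with
  | nil => intro a ha; simp at ha
  | @cons a b u v h1 _ ih =>
    intro c hc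
    rcases List.mem_cons.1 hc with rfl | hc
    · exact ⟨b, by simp, h1⟩
    · obtain ⟨d, hd, hd'⟩ := ih c hc
      exact ⟨d, by simp [hd], hd'⟩

include h1 h2 hI hp ht in
theorem old_part {α w : List ℕ} (hY : Y G' α w) :
    (∀ z ∈ α, ∃ x, (x ∈ ts0 ∨ (9 ≤ x ∧ x ≤ 13)) ∧ z ∈ σ x) → Y H α w := by
  have hmem : ∀ x, (x ∈ ts0 ∨ (9 ≤ x ∧ x ≤ 13)) → x ∈ nts0 ∨ x ∈ ts0 := by
    intro x hx
    rcases hx with h | h
    · exact Or.inr h
    · left; rw [mem_nts0]; omega
  induction hY with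
  | nil => intro _; exact Y.nil
  | term ha _ ih =>
    intro hl
    exact Y.term (by rw [ht]; exact ha) (ih (fun x hx => hl x (by simp [hx])))
  | @nt A β u α w hr _ _ ih1 ih2 =>
    intro hl
    obtain ⟨x, hx, hAx⟩ := hl A (by simp)
    obtain ⟨r0, hr0, h3, h4⟩ := hI.2.2.2.2 _ hr
    have hr0n : r0.1 ∈ nts0 := ((GB_grammar h1 h2).2.2 _ hr0).1
    have hxr : x = r0.1 := sigma_inj hI (hmem x hx) (Or.inl hr0n) hAx h3
    subst hxr
    have hPA : r0 ∈ PA J := by
      rcases mem_GB.1 hr0 with rfl | h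
      · exfalso
        rcases hx with h | h
        · rw [mem_ts0] at h; simp at h
        · simp at h
      · exact h
    have hlet := (PA_ok h1 h2 hPA).2.2
    refine Y.nt ?_ (ih1 ?_) (ih2 (fun x hx => hl x (by simp [hx])))
    · rw [hp]
      refine ⟨⟨r0, hPA, mem_tau.2 (Or.inl h3), ?_⟩, Or.inl hr⟩
      exact forall₂_mono (fun a b hab => mem_tau.2 (Or.inl hab)) h4
    · intro z hz
      obtain ⟨y, hy, hzy⟩ := forall₂_mem h4 z hz
      refine ⟨y, ?_, hzy⟩
      rcases hlet y hy with h | h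
      · exact Or.inr h
      · exact Or.inl (mem_ts0.2 h)

include h1 h2 hI in
/-- words derived from `9` or `10` are read by runs -/
theorem run_of_Y : ∀ (n : ℕ) (z : ℕ) (u : List ℕ), u.length ≤ n → (z ∈ σ 9 ∨ z ∈ σ 10) →
    Y G' [z] u → Run G' (some z) u none := by
  have hGg : G'.IsGrammar := hI.isGrammar (GB_grammar h1 h2)
  have h9 : (9 : ℕ) ∈ nts0 := by simp [nts0]
  have h10 : (10 : ℕ) ∈ nts0 := by simp [nts0]
  have key : ∀ (n : ℕ) (z : ℕ) (u : List ℕ), u.length ≤ n → (z ∈ σ 9 ∨ z ∈ σ 10) →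
      Y G' [z] u → ∃ a u', u = a :: u' ∧ a ∈ G'.ts ∧ ((z, [a]) ∈ G'.prods ∧ u' = [] ∨
        ∃ z', (z, [a, z']) ∈ G'.prods ∧ z' ∈ G'.nts ∧ (z' ∈ σ 9 ∨ z' ∈ σ 10) ∧ Y G' [z'] u') := by
    intro n z u hn hz hY
    have hzn : z ∈ G'.nts := by
      rcases hz with h | h
      · exact (hI.2.1 z).2 ⟨9, h9, h⟩
      · exact (hI.2.1 z).2 ⟨10, h10, h⟩
    obtain ⟨β, hβ, hY'⟩ := hY.single_inv hGg hzn
    obtain ⟨r0, hr0, h3, h4⟩ := hI.2.2.2.2 _ hβ
    have hr0n : r0.1 ∈ nts0 := ((GB_grammar h1 h2).2.2 _ hr0).1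
    -- the shape of the right side
    have hshape : (∃ a, a ∈ ts0 ∧ r0.2 = [a]) ∨
        ∃ a b, a ∈ ts0 ∧ (b = 9 ∨ b = 10) ∧ r0.2 = [a, b] := by
      rcases hz with h | h
      · have hr9 : r0.1 = 9 := sigma_inj hI (Or.inl hr0n) (Or.inl h9) h3 h
        have hr0' : (9, r0.2) ∈ (GB J).prods := by rw [← hr9]; exact hr0
        rcases inv9 (std_GB J) hr0' with ⟨i, h⟩ | h | h
        · exact Or.inr ⟨_, 9, by rw [mem_ts0]; omega, Or.inl rfl, h⟩
        · exact Or.inr ⟨_, 10, by rw [mem_ts0], Or.inr rfl, h⟩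
        · exact Or.inl ⟨7, by rw [mem_ts0], h⟩
      · have hr10 : r0.1 = 10 := sigma_inj hI (Or.inl hr0n) (Or.inl h10) h3 h
        have hr0' : (10, r0.2) ∈ (GB J).prods := by rw [← hr10]; exact hr0
        rcases inv10 (std_GB J) hr0' with ⟨c, hc, h⟩ | ⟨c, hc, h⟩
        · exact Or.inr ⟨_, 10, by rw [mem_ts0]; omega, Or.inr rfl, h⟩
        · exact Or.inl ⟨c, by rw [mem_ts0]; omega, h⟩
    rcases hshape with ⟨a, ha, h5⟩ | ⟨a, b, ha, hb, h5⟩
    · rw [h5] at h4
      rcases β with _ | ⟨a', β⟩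
      · cases h4
      · rw [List.forall₂_cons] at h4
        obtain ⟨h6, h7⟩ := h4
        cases h7
        have hat : a' ∈ G'.ts := (hI.2.2.1 a').2 ⟨a, ha, h6⟩
        obtain ⟨u', rfl, h8⟩ := hY'.term_inv hGg hat
        cases h8
        exact ⟨a', [], rfl, hat, Or.inl ⟨hβ, rfl⟩⟩
    · rw [h5] at h4
      rcases β with _ | ⟨a', β⟩
      · cases h4
      · rw [List.forall₂_cons] at h4
        obtain ⟨h6, h7⟩ := h4
        rcases β with _ | ⟨z', β⟩
        · cases h7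
        · rw [List.forall₂_cons] at h7
          obtain ⟨h8, h9'⟩ := h7
          cases h9'
          have hat : a' ∈ G'.ts := (hI.2.2.1 a').2 ⟨a, ha, h6⟩
          obtain ⟨u', rfl, h10'⟩ := hY'.term_inv hGg hat
          refine ⟨a', u', rfl, hat, Or.inr ⟨z', hβ, ?_, ?_, h10'⟩⟩
          · rcases hb with rfl | rfl
            · exact (hI.2.1 z').2 ⟨9, h9, h8⟩
            · exact (hI.2.1 z').2 ⟨10, h10, h8⟩
          · rcases hb with rfl | rfl
            · exact Or.inl h8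
            · exact Or.inr h8
  intro n
  induction n with
  | zero =>
    intro z u hu hz hY
    obtain ⟨a, u', rfl, _⟩ := key 0 z u hu hz hY
    simp at hu
  | succ n ih =>
    intro z u hu hz hY
    obtain ⟨a, u', rfl, ha, h⟩ := key _ z u hu hz hY
    rcases h with ⟨h3, rfl⟩ | ⟨z', h3, h4, h5, h6⟩
    · exact Run.fin h3 ha (Run.nil none)
    · exact Run.mid h3 ha h4 (ih z' u' (by simp at hu; omega) h5 h6)

end

end Pool.Agent.H64GF
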