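import Mathlib
import Pool.Agent.H64GF.Main

/-!
# The families of the two grammars coincide iff the instance has no solution
-/

set_option autoImplicit false

namespace Pool.Agent.H64GF

/-- the instance has a solution -/
def Sol (J : Inst) : Prop := ∃ x : List (Fin 4), x ≠ [] ∧ x.flatMap J.1 = x.flatMap J.2

theorem std_GA' (J : Inst) : StdW (GA J) := std_GA J

theorem mprods12 {J : Inst} {β : List ℕ} : (12, β) ∈ (GA J).prods ↔ (12, β) ∈ mprods 12 J.1 := by
  rw [mem_GA, mem_PA]
  constructor
  · rintro (h | h | h | h | h | h)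
    · have := congrArg Prod.fst h; simp at this
    · have := congrArg Prod.fst h; simp at this
    · have := congrArg Prod.fst h; simp at this
    · have := wprods_fst h; simp at this
    · exact h
    · have := fst_mprods h; simp at this
  · intro h
    exact Or.inr (Or.inr (Or.inr (Or.inr (Or.inl h))))

theorem mprods13 {J : Inst} {β : List ℕ} : (13, β) ∈ (GA J).prods ↔ (13, β) ∈ mprods 13 J.2 := by
  rw [mem_GA, mem_PA]
  constructor
  · rintro (h | h | h | h | h | h)
    · have := congrArg Prod.fst h; simp at this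
    · have := congrArg Prod.fst h; simp at this
    · have := congrArg Prod.fst h; simp at this
    · have := wprods_fst h; simp at this
    · have := fst_mprods h; simp at this
    · exact h
  · intro h
    exact Or.inr (Or.inr (Or.inr (Or.inr (Or.inr h))))

theorem inv8 {J : Inst} {β : List ℕ} (h : (8, β) ∈ PA J) :
    β = pw ++ [7] ∨ β = pw ++ [12] ∨ β = pw ++ [13] := by
  rcases mem_PA.1 h with h | h | h | h | h | h
  · exact Or.inl (congrArg Prod.snd h)
  · exact Or.inr (Or.inl (congrArg Prod.snd h))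
  · exact Or.inr (Or.inr (congrArg Prod.snd h))
  · have := wprods_fst h; simp at this
  · have := fst_mprods h; simp at this
  · have := fst_mprods h; simp at this

theorem pw_ts : ∀ a ∈ pw, a ∈ ts0 := fun _ h => h

/-- soundness of the first grammar -/
theorem GA_sound {J : Inst} (h1 : Ok J.1) (h2 : Ok J.2) {w : List ℕ} (h : Y (GA J) [8] w) :
    ∃ (x : List (Fin 4)) (y : List ℕ), (∀ c ∈ y, c ≤ 2) ∧ w = pw ++ (cx x ++ 7 :: y) ∧
      ((x = [] ∧ y = []) ∨ y ≠ x.reverse.flatMap J.1 ∨ y ≠ x.reverse.flatMap J.2) := by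
  have hG := GA_grammar h1 h2
  obtain ⟨β, hβ, hY⟩ := h.single_inv hG (by simp [ga_nts, nts0])
  have hpw : ∀ {γ u}, Y (GA J) (pw ++ γ) u → ∃ v, u = pw ++ v ∧ Y (GA J) γ v := by
    intro γ u hu
    obtain ⟨u1, u2, rfl, h3, h4⟩ := hu.split
    have : u1 = pw := h3.eq_self hG pw_ts
    subst this
    exact ⟨u2, rfl, h4⟩
  rcases inv8 hβ with rfl | rfl | rfl
  · obtain ⟨v, rfl, h3⟩ := hpw hY
    have h4 : v = [7] := h3.eq_self hG (by intro a ha; rw [List.mem_singleton] at ha; rw [ha, ga_ts, mem_ts0])
    subst h4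
    exact ⟨[], [], by simp, rfl, Or.inl ⟨rfl, rfl⟩⟩
  · obtain ⟨v, rfl, h3⟩ := hpw hY
    obtain ⟨x, y, hy, rfl, hne⟩ := YM hG rfl rfl (std_GA J) h1 (by simp [nts0])
      (fun β hβ => mprods12.1 hβ) _ v le_rfl h3
    exact ⟨x, y, hy, rfl, Or.inr (Or.inl hne)⟩
  · obtain ⟨v, rfl, h3⟩ := hpw hY
    obtain ⟨x, y, hy, rfl, hne⟩ := YM hG rfl rfl (std_GA J) h2 (by simp [nts0])
      (fun β hβ => mprods13.1 hβ) _ v le_rfl h3
    exact ⟨x, y, hy, rfl, Or.inr (Or.inr hne)⟩

theorem cx_inj : ∀ {x x' : List (Fin 4)} {y y' : List ℕ}, cx x ++ 7 :: y = cx x' ++ 7 :: y' →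
    x = x' ∧ y = y' := by
  intro x
  induction x with
  | nil =>
    intro x' y y' h
    cases x' with
    | nil => simpa [cx] using h
    | cons i x' =>
      have h3 : 7 :: y = ((i : ℕ) + 3) :: (cx x' ++ 7 :: y') := h
      have := i.2
      rw [List.cons.injEq] at h3
      omega
  | cons i x ih =>
    intro x' y y' h
    cases x' with
    | nil =>
      have h3 : ((i : ℕ) + 3) :: (cx x ++ 7 :: y) = 7 :: y' := h
      have := i.2
      rw [List.cons.injEq] at h3
      omega
    | cons j x' =>
      rw [cx_cons, cx_cons, List.cons_append, List.cons_append, List.cons.injEq] at h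
      obtain ⟨h3, h4⟩ := h
      obtain ⟨rfl, rfl⟩ := ih h4
      have : i = j := Fin.ext (by omega)
      subst this
      exact ⟨rfl, rfl⟩

theorem cx_le (x : List (Fin 4)) : ∀ a ∈ cx x, a ≤ 7 := by
  intro a ha
  unfold cx at ha
  rw [List.mem_map] at ha
  obtain ⟨i, _, rfl⟩ := ha
  have := i.2
  change (i : ℕ) + 3 ≤ 7
  omega

/-- if there is a solution, then the families differ -/
theorem not_sol_of_eq {J : Inst} (h1 : Ok J.1) (h2 : Ok J.2)
    (h : (GA J).family = (GB J).family) : ¬ Sol J := by
  rintro ⟨x, hx, hsol⟩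
  have hGA := GA_grammar h1 h2
  have hGB := GB_grammar h1 h2
  -- the critical word
  let y := x.flatMap J.1
  have hy : ∀ c ∈ y, c ≤ 2 := by
    intro c hc
    obtain ⟨i, _, hi⟩ := List.mem_flatMap.1 hc
    exact (h1 i).2 c hi
  let w := pw ++ (cx x.reverse ++ 7 :: y)
  have hw7 : ∀ a ∈ w, a ≤ 7 := by
    intro a ha
    rcases List.mem_append.1 ha with h | h
    · exact mem_ts0.1 (pw_ts a h)
    rcases List.mem_append.1 h with h | h
    · exact cx_le _ a h
    rcases List.mem_cons.1 h with rfl | h
    · exact le_rfl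
    · exact (hy a h).trans (by norm_num)
  have hwB : w ∈ (GB J).lang := by
    rw [mem_lang_iff]
    change Y (GB J) [8] w
    refine Y.single (β := pw ++ [9]) (mem_GB.2 (Or.inl rfl)) ?_
    exact (Y.self (G := GB J) pw_ts).append (mkY9 hGB rfl rfl (std_GB J) _ _ hy)
  have hfam : (GB J).lang ∈ (GA J).family := by
    rw [h]
    refine ⟨GB J, hGB, ⟨fun x => {x}, ?_, ?_, ?_, ?_, ?_⟩, rfl⟩
    · intro a _ b _ hab
      simpa using hab
    · intro z
      constructor
      · intro hz; exact ⟨z, hz, by simp⟩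
      · rintro ⟨A, hA, hz⟩
        rw [Finset.mem_singleton] at hz
        rw [hz]; exact hA
    · intro z
      constructor
      · intro hz; exact ⟨z, hz, by simp⟩
      · rintro ⟨A, hA, hz⟩
        rw [Finset.mem_singleton] at hz
        rw [hz]; exact hA
    · simp
    · intro r hr
      refine ⟨r, hr, by simp, ?_⟩
      have : ∀ l : List ℕ, List.Forall₂ (fun z x => z ∈ ({x} : Finset ℕ)) l l := by
        intro l
        induction l with
        | nil => exact List.Forall₂.nil
        | cons a l ih => exact List.Forall₂.cons (by simp) ih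
      exact this _
  obtain ⟨G', hG', ⟨σ, hI⟩, hL⟩ := hfam
  rw [hL, mem_lang_iff] at hwB
  obtain ⟨w0, hw0, hY0⟩ := Y.map hGA hI hwB [8] (List.Forall₂.cons hI.2.2.2.1 List.Forall₂.nil)
    (by intro x hx; rw [List.mem_singleton] at hx; subst hx; left; simp [ga_nts, nts0])
  obtain ⟨x0, y0, hy0, rfl, hcase⟩ := GA_sound h1 h2 hY0
  -- the substitution fixes the letters of `pw`
  have hfix : ∀ a, a ≤ 7 → a ∈ σ a := by
    have h3 : List.Forall₂ (fun z x => z ∈ σ x) (pw ++ (cx x.reverse ++ 7 :: y))
      (pw ++ (cx x0 ++ 7 :: y0)) := hw0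
    simp only [pw, List.cons_append, List.nil_append, List.forall₂_cons] at h3
    obtain ⟨a0, a1, a2, a3, a4, a5, a6, a7, _⟩ := h3
    intro a ha
    interval_cases a
    · exact a0
    · exact a1
    · exact a2
    · exact a3
    · exact a4
    · exact a5
    · exact a6
    · exact a7
  have hw07 : ∀ a ∈ pw ++ (cx x0 ++ 7 :: y0), a ≤ 7 := by
    intro a ha
    rcases List.mem_append.1 ha with h | h
    · exact mem_ts0.1 (pw_ts a h)
    rcases List.mem_append.1 h with h | h
    · exact cx_le _ a h
    rcases List.mem_cons.1 h with rfl | h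
    · exact le_rfl
    · exact (hy0 a h).trans (by norm_num)
  have heq : w = pw ++ (cx x0 ++ 7 :: y0) := by
    have key : ∀ {u v : List ℕ}, List.Forall₂ (fun z x => z ∈ σ x) u v → (∀ a ∈ u, a ≤ 7) →
        (∀ a ∈ v, a ≤ 7) → u = v := by
      intro u v huv
      induction huv with
      | nil => intros; rfl
      | @cons a b u v hab _ ih =>
        intro hu hv
        have ha : a ≤ 7 := hu a (by simp)
        have hb : b ≤ 7 := hv b (by simp)
        have : a = b := by
          by_contra hne
          exact Finset.disjoint_left.1 (hI.1 a (Or.inr (mem_ts0.2 ha)) b (Or.inr (mem_ts0.2 hb))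
            hne) (hfix a ha) hab
        rw [this, ih (fun c hc => hu c (by simp [hc])) (fun c hc => hv c (by simp [hc]))]
    exact key hw0 hw7 hw07
  have h3 := List.append_cancel_left heq
  obtain ⟨h4, h5⟩ := cx_inj h3
  rw [← h4, ← h5, List.reverse_reverse] at hcase
  rcases hcase with ⟨h6, _⟩ | h6 | h6
  · exact hx (by simpa using h6)
  · exact h6 rfl
  · exact h6 hsol

/-- if there is no solution, then the families coincide -/
theorem eq_of_not_sol {J : Inst} (h1 : Ok J.1) (h2 : Ok J.2) (hns : ¬ Sol J) :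
    (GA J).family = (GB J).family := by
  have hGA := GA_grammar h1 h2
  have hGB := GB_grammar h1 h2
  apply Set.Subset.antisymm
  · rintro L ⟨G', hG', ⟨σ, i1, i2, i3, i4, i5⟩, hL⟩
    refine ⟨G', hG', ⟨σ, i1, i2, i3, i4, ?_⟩, hL⟩
    intro r' hr'
    obtain ⟨r, hr, h3⟩ := i5 r' hr'
    exact ⟨r, mem_GB.2 (Or.inr (mem_GA.1 hr)), h3⟩
  · rintro L ⟨G', hG', ⟨σ, hI⟩, rfl⟩
    obtain ⟨K, hK⟩ : ∃ K, ∀ z, (z ∈ G'.nts ∨ z ∈ G'.ts) → z < K := by
      refine ⟨(G'.nts ++ G'.ts).sum + 1, fun z hz => ?_⟩
      have : z ∈ G'.nts ++ G'.ts := List.mem_append.2 hz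
      have := List.le_sum_of_mem this
      omega
    obtain ⟨H, hn, ht, hs, hp⟩ := exists_product J G' σ K
    have hIH := interpH hI hK hn ht hs hp
    refine ⟨H, hIH.isGrammar hGA, ⟨_, hIH⟩, ?_⟩
    have hsN : G'.start ∈ G'.nts := hG'.2.1
    ext w
    rw [mem_lang_iff, mem_lang_iff, hs]
    constructor
    · intro hY
      obtain ⟨β, hβ, hYβ⟩ := hY.single_inv hG' hsN
      obtain ⟨r0, hr0, h3, h4⟩ := hI.2.2.2.2 _ hβ
      have hr0n : r0.1 ∈ nts0 := (hGB.2.2 _ hr0).1
      have hr8 : r0.1 = 8 :=
        sigma_inj hI (Or.inl hr0n) (Or.inl (by simp [nts0])) h3 hI.2.2.2.1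
      have hold : ∀ z ∈ β, (∃ x ∈ r0.2, z ∈ σ x) := forall₂_mem h4
      rcases mem_GB.1 hr0 with hr | hr
      · -- the additional production
        have hr2 : r0.2 = pw ++ [9] := congrArg Prod.snd hr
        rw [hr2] at h4
        obtain ⟨p, b, rfl, h5, h6⟩ := forall₂_append_left h4
        obtain ⟨z, rfl⟩ : ∃ z, b = [z] := by
          cases h6 with
          | cons _ h7 => cases h7; exact ⟨_, rfl⟩
        have hz9 : z ∈ σ 9 := by
          rw [List.forall₂_cons] at h6
          exact h6.1
        have hpt : ∀ x ∈ p, x ∈ G'.ts := by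
          intro x hx
          obtain ⟨a, ha, hxa⟩ := forall₂_mem h5 x hx
          exact (hI.2.2.1 x).2 ⟨a, pw_ts a ha, hxa⟩
        have hzn : z ∈ G'.nts := (hI.2.1 z).2 ⟨9, by simp [gb_nts, nts0], hz9⟩
        obtain ⟨u1, u, rfl, h7, h8⟩ := hYβ.split
        have : u1 = p := h7.eq_self hG' hpt
        subst this
        have hrun := run_of_Y h1 h2 hI _ z u le_rfl (Or.inl hz9) h8
        obtain ⟨u0, hu0, hYu0⟩ := Y.map hGB hI h8 [9] (List.Forall₂.cons hz9 List.Forall₂.nil)
          (by intro x hx; rw [List.mem_singleton] at hx; subst hx; left; simp [gb_nts, nts0])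
        obtain ⟨x, y, hy, rfl⟩ := Y9 hGB rfl rfl (std_GB J) _ u0 le_rfl hYu0
        have hmain : ∀ M, M ∈ nts0 → (8, pw ++ [M]) ∈ PA J → Y (GA J) [M] (cx x ++ 7 :: y) →
            Y H [G'.start] (u1 ++ u) := by
          intro M hM hMP hMY
          obtain ⟨α', hLα, hYα⟩ := complete h1 h2 hI hK hn ht hs hp hMY
            (by intro x hx; rw [List.mem_singleton] at hx; subst hx; exact Or.inl hM)
            u (some z) none hu0 (by intro y hy; cases hy; exact hzn) hrun
          have hinn : InSt G' none := by intro y hy; cases hy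
          have hα' : α' = [enc K (some z) M none] := by
            generalize hMM : [M] = MM at hLα
            cases hLα with
            | term h9 _ _ _ =>
              rw [List.cons.injEq] at hMM
              obtain ⟨rfl, _⟩ := hMM
              exact absurd hM (not_nts_of_ts h9)
            | @nt _ r _ B _ _ h9 h10 h11 h12 =>
              rw [List.cons.injEq] at hMM
              obtain ⟨rfl, rfl⟩ := hMM
              cases h12
              rfl
          subst hα'
          refine Y.single (β := u1 ++ [enc K (some z) M none]) ?_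
            (Y.append (Y.self (by rw [ht]; exact hpt)) hYα)
          rw [hp]
          refine ⟨⟨(8, pw ++ [M]), hMP, mem_tau.2 (Or.inl hI.2.2.2.1), ?_⟩,
            Or.inr (Or.inl ⟨z, M, u1, hβ, hpt, hzn, hM, rfl⟩)⟩
          refine forall₂_append (forall₂_mono (fun a b hab => mem_tau.2 (Or.inl hab)) h5) ?_
          refine List.Forall₂.cons (mem_tau.2 (Or.inr ⟨hM, some z, none, ?_, hinn, rfl⟩))
            List.Forall₂.nil
          intro y hy; cases hy; exact hzn
        by_cases hxy : x = [] ∧ y = []
        · obtain ⟨rfl, rfl⟩ := hxy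
          change List.Forall₂ _ u [7] at hu0
          obtain ⟨c, rfl⟩ : ∃ c, u = [c] := by
            cases hu0 with
            | cons _ h7 => cases h7; exact ⟨_, rfl⟩
          have hc7 : c ∈ σ 7 := by
            rw [List.forall₂_cons] at hu0
            exact hu0.1
          have hct : c ∈ G'.ts := (hI.2.2.1 c).2 ⟨7, by rw [gb_ts, mem_ts0], hc7⟩
          have hzc : (z, [c]) ∈ G'.prods := by
            cases hrun with
            | mid _ _ _ h9 => cases h9
            | fin h9 _ _ => exact h9
          refine Y.single (β := u1 ++ [c]) ?_ ?_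
          · rw [hp]
            refine ⟨⟨(8, pw ++ [7]), mem_PA.2 (Or.inl rfl), mem_tau.2 (Or.inl hI.2.2.2.1), ?_⟩,
              Or.inr (Or.inr (Or.inl ⟨z, c, u1, hβ, hpt, hct, hzc, rfl⟩))⟩
            refine forall₂_append (forall₂_mono (fun a b hab => mem_tau.2 (Or.inl hab)) h5) ?_
            exact List.Forall₂.cons (mem_tau.2 (Or.inl hc7)) List.Forall₂.nil
          · apply Y.self
            intro a ha
            rw [ht]
            rcases List.mem_append.1 ha with h | h
            · exact hpt a h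
            · rw [List.mem_singleton] at h; rw [h]; exact hct
        · by_cases hg : y = x.reverse.flatMap J.1
          · have hh : y ≠ x.reverse.flatMap J.2 := by
              intro hh
              apply hns
              refine ⟨x.reverse, ?_, by rw [← hg, ← hh]⟩
              intro hx
              apply hxy
              have hx' : x = [] := by simpa using hx
              refine ⟨hx', ?_⟩
              rw [hg, hx']; rfl
            exact hmain 13 (by simp [nts0]) (mem_PA.2 (Or.inr (Or.inr (Or.inl rfl))))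
              (mkYM hGA rfl rfl (std_GA J) h2 (fun β hβ => mprods13.2 hβ) x y hy hh)
          · exact hmain 12 (by simp [nts0]) (mem_PA.2 (Or.inr (Or.inl rfl)))
              (mkYM hGA rfl rfl (std_GA J) h1 (fun β hβ => mprods12.2 hβ) x y hy hg)
      · -- an old production
        have hHβ : (G'.start, β) ∈ H.prods := by
          rw [hp]
          exact ⟨⟨r0, hr, mem_tau.2 (Or.inl h3),
            forall₂_mono (fun a b hab => mem_tau.2 (Or.inl hab)) h4⟩, Or.inl hβ⟩
        refine Y.single hHβ (old_part h1 h2 hI ht hp hYβ ?_)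
        intro z hz
        obtain ⟨x, hx, hzx⟩ := hold z hz
        refine ⟨x, ?_, hzx⟩
        rcases (PA_ok h1 h2 hr).2.2 x hx with h | h
        · exact Or.inr h
        · exact Or.inl (mem_ts0.2 h)
    · intro hY
      exact sound h1 h2 hI hK hn ht hs hp hY
        (by intro x hx; rw [List.mem_singleton] at hx; subst hx; exact Or.inl hsN)

theorem family_eq_iff {J : Inst} (h1 : Ok J.1) (h2 : Ok J.2) :
    (GA J).family = (GB J).family ↔ ¬ Sol J :=
  ⟨not_sol_of_eq h1 h2, eq_of_not_sol h1 h2⟩

end Pool.Agent.H64GF
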