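import Mathlib
import Pool.Agent.H64GF.Final
import Pool.Agent.Helper231_PCP.Main

/-!
# The two grammars are computable from the instance
-/

set_option autoImplicit false

namespace Pool.Agent.H64GF

theorem primrec_drop : Primrec₂ (fun (v : List ℕ) (j : ℕ) => v.drop (j + 1)) :=
  Primrec.list_drop.comp₂ (Primrec.succ.comp₂ Primrec₂.right) Primrec₂.left

theorem primrec_p1 (M i k : ℕ) :
    Primrec₂ (fun (v : List ℕ) (j : ℕ) => ((M, (i + 3) :: k :: v.drop (j + 1)) : ℕ × List ℕ)) := by
  refine Primrec.pair (Primrec.const M) ?_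
  refine Primrec.list_cons.comp (Primrec.const (i + 3)) ?_
  refine Primrec.list_cons.comp (Primrec.const k) ?_
  exact primrec_drop

theorem primrec_mis (M i c : ℕ) : Primrec₂ (fun (v : List ℕ) (j : ℕ) => mis M i v j c) := by
  unfold mis
  have h0 : PrimrecPred (fun p : List ℕ × ℕ => p.1.getD p.2 0 = c) :=
    PrimrecRel.comp (Primrec.eq) ((Primrec.list_getD 0).comp Primrec.fst Primrec.snd)
      (Primrec.const c)
  refine Primrec.ite h0 (primrec_p1 M i 11) ?_
  refine Primrec.pair (Primrec.const M) ?_
  refine Primrec.list_cons.comp (Primrec.const (i + 3)) ?_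
  refine Primrec.list_cons.comp (Primrec.const 9) ?_
  refine Primrec.list_cons.comp (Primrec.const c) ?_
  exact primrec_drop

theorem primrec_block (M i : ℕ) : Primrec (block M i) := by
  unfold block
  refine Primrec.list_cons.comp ?_ ?_
  · refine Primrec.pair (Primrec.const M) ?_
    refine Primrec.list_cons.comp (Primrec.const (i + 3)) ?_
    exact Primrec.list_cons.comp (Primrec.const M) Primrec.id
  · refine Primrec.list_flatMap (Primrec.list_range.comp Primrec.list_length) ?_
    refine Primrec.list_cons.comp (primrec_p1 M i 11) ?_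
    refine Primrec.list_cons.comp (primrec_mis M i 0) ?_
    refine Primrec.list_cons.comp (primrec_mis M i 1) ?_
    refine Primrec.list_cons.comp (primrec_mis M i 2) ?_
    exact Primrec.const []

theorem primrec_mprods (M : ℕ) : Primrec (mprods M) := by
  unfold mprods
  have h : ∀ (n : ℕ) (i : Fin 4), Primrec (fun f : Fin 4 → List ℕ => block M n (f i)) := by
    intro n i
    exact (primrec_block M n).comp (Primrec.fin_app.comp Primrec.id (Primrec.const i))
  refine Primrec.list_cons.comp (Primrec.const _) ?_
  refine Primrec.list_append.comp (h 0 0) ?_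
  refine Primrec.list_append.comp (h 1 1) ?_
  exact Primrec.list_append.comp (h 2 2) (h 3 3)

theorem primrec_PA : Primrec PA := by
  unfold PA
  refine Primrec.list_cons.comp (Primrec.const _) ?_
  refine Primrec.list_cons.comp (Primrec.const _) ?_
  refine Primrec.list_cons.comp (Primrec.const _) ?_
  refine Primrec.list_append.comp (Primrec.const _) ?_
  exact Primrec.list_append.comp ((primrec_mprods 12).comp Primrec.fst)
    ((primrec_mprods 13).comp Primrec.snd)

theorem primrec_GA : Primrec GA := by
  unfold GA
  exact Primrec.pair (Primrec.const _) (Primrec.pair primrec_PA (Primrec.const 8))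

theorem primrec_GB : Primrec GB := by
  unfold GB
  exact Primrec.pair (Primrec.const _)
    (Primrec.pair (Primrec.list_cons.comp (Primrec.const _) primrec_PA) (Primrec.const 8))

/-- a computable family of pairs of linear grammars, the first of which has one production less,
with noncomputable family equivalence -/
theorem exists_family : ∃ c d : ℕ → Code, Computable c ∧ Computable d ∧
    (∀ n, (c n).IsGrammar ∧ (d n).IsGrammar ∧ (c n).IsLinear ∧ (d n).IsLinear) ∧
    ¬ ComputablePred (fun n => (c n).family = (d n).family) := by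
  obtain ⟨J, hJ, hund, hok⟩ := Pool.Agent.Helper231_PCP.family 4 le_rfl
  have h1 : ∀ n, Ok (J n).1 := fun n i => ⟨(hok n i).1, (hok n i).2.2.1⟩
  have h2 : ∀ n, Ok (J n).2 := fun n i => ⟨(hok n i).2.1, (hok n i).2.2.2⟩
  refine ⟨fun n => GA (J n), fun n => GB (J n), primrec_GA.to_comp.comp hJ,
    primrec_GB.to_comp.comp hJ, fun n => ⟨GA_grammar (h1 n) (h2 n), GB_grammar (h1 n) (h2 n),
      GA_linear (h1 n) (h2 n), GB_linear (h1 n) (h2 n)⟩, ?_⟩
  intro hc
  apply hund
  have h3 : ComputablePred (fun n => ¬ (GA (J n)).family = (GB (J n)).family) := hc.not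
  refine h3.of_eq (fun n => ?_)
  rw [family_eq_iff (h1 n) (h2 n), not_not]
  rfl

end Pool.Agent.H64GF
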